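import Pool.Agent.U661.RV.Fam
import Pool.Agent.U661.HS.Cliff

/-!
# Forms on euclidean spaces
-/

set_option autoImplicit false

namespace Pool.Agent.U661.RV

open Finset Pool.Agent.Y195.HF Pool.Agent.W666.GB Pool.Agent.W669.HD Pool.Agent.U661.HS

variable {m : ℕ}

theorem cross_mul (A B : Mt m) : ff false true A * ff false true B =
    (-1 : ℂ) • eL (fun i j k l => A i k * B j l) := by
  have h : ff false true A * ff false true B = ∑ i, ∑ j, ∑ k, ∑ l, (A i k * B j l) •
      (bv (th m false i) (th m true k) * bv (th m false j) (th m true l)) := by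
    simp only [ff]
    rw [Finset.sum_mul]
    refine Finset.sum_congr rfl fun i _ => ?_
    rw [Finset.mul_sum]
    refine Finset.sum_congr rfl fun j _ => ?_
    rw [Finset.sum_mul]
    refine Finset.sum_congr rfl fun k _ => ?_
    rw [Finset.mul_sum]
    refine Finset.sum_congr rfl fun l _ => ?_
    simp only [Algebra.smul_def, map_mul]
    ring
  rw [h, eL, el, neg_one_smul, ← Finset.sum_neg_distrib]
  refine Finset.sum_congr rfl fun i _ => ?_
  rw [← Finset.sum_neg_distrib]
  refine Finset.sum_congr rfl fun j _ => ?_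
  rw [← Finset.sum_neg_distrib]
  refine Finset.sum_congr rfl fun k _ => ?_
  rw [← Finset.sum_neg_distrib]
  refine Finset.sum_congr rfl fun l _ => ?_
  rw [bv_exch (th m false i) (th m true k), smul_neg]

theorem cross_mul' (A B : Mt m) : ff false true A * ff false true B =
    eL (fun i j k l => A i l * B j k) := by
  rw [cross_mul]
  simp only [eL, el]
  rw [neg_one_smul, ← Finset.sum_neg_distrib]
  refine Finset.sum_congr rfl fun i _ => ?_
  rw [← Finset.sum_neg_distrib]
  refine Finset.sum_congr rfl fun j _ => ?_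
  rw [← Finset.sum_neg_distrib, Finset.sum_comm]
  simp only [← Finset.sum_neg_distrib]
  refine Finset.sum_congr rfl fun k _ => ?_
  refine Finset.sum_congr rfl fun l _ => ?_
  rw [bv_swap (th m true k) (th m true l), mul_neg, smul_neg]

/-- components of the product of two symmetric matrices -/
def knM (A B : Fin m × Bool → Fin m × Bool → ℝ) : T4 m := fun i j k l =>
  A i k * B j l + B i k * A j l - A i l * B j k - B i l * A j k

theorem eL_kn (A B : Fin m × Bool → Fin m × Bool → ℝ) :
    eL (cx (knM A B)) = (-4 : ℂ) • (xs A * xs B) := by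
  have h1 : (cx (knM A B) : C4 m) = fun i j k l =>
      ((fun i j k l => (fun i j k l => cm A i k * cm B j l : C4 m) i j k l +
        (fun i j k l => cm B i k * cm A j l : C4 m) i j k l : C4 m) i j k l) +
      (fun i j k l => (fun i j k l => (-1) * (cm A i l * cm B j k) : C4 m) i j k l +
        (fun i j k l => (-1) * (cm B i l * cm A j k) : C4 m) i j k l : C4 m) i j k l := by
    funext i j k l
    simp only [cx, cm, knM]
    push_cast
    ring
  have e1 := cross_mul (cm A) (cm B)
  have e2 := cross_mul (cm B) (cm A)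
  have e3 := cross_mul' (cm A) (cm B)
  have e4 := cross_mul' (cm B) (cm A)
  rw [h1, eL_add, eL_add, eL_add, eL_smul (-1) (fun i j k l => cm A i l * cm B j k),
    eL_smul (-1) (fun i j k l => cm B i l * cm A j k), ← e3, ← e4]
  have e5 : eL (fun i j k l => cm A i k * cm B j l : C4 m) =
      (-1 : ℂ) • (ff false true (cm A) * ff false true (cm B)) := by
    rw [e1, smul_smul]
    norm_num
  have e6 : eL (fun i j k l => cm B i k * cm A j l : C4 m) =
      (-1 : ℂ) • (ff false true (cm B) * ff false true (cm A)) := by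
    rw [e2, smul_smul]
    norm_num
  rw [e5, e6, xs, xs, mul_comm (ff false true (cm B)) (ff false true (cm A))]
  module

section forms

variable {V : Type} [NormedAddCommGroup V] [InnerProductSpace ℝ V]

/-- The product `S ∧ S'` (Kulkarni–Nomizu) of two symmetric forms. -/
def kn (S S' : V → V → ℝ) (x y z w : V) : ℝ :=
  S x z * S' y w + S' x z * S y w - S x w * S' y z - S' x w * S y z

/-- symmetric positive semidefinite forms -/
def Psd (S : V → V → ℝ) : Prop := SymForm S ∧ ∀ x, 0 ≤ S x x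

/-- `δ · unitT + ∑ kn (S j) (S' j)` -/
noncomputable def base {r : ℕ} (δ : ℝ) (S S' : Fin r → V → V → ℝ) (x y z w : V) : ℝ :=
  δ * unitT x y z w + ∑ j, kn (S j) (S' j) x y z w

/-- Any three real combinations of the skew forms are reversed by one isometry, which preserves the
symmetric forms. -/
def RevTri {n r : ℕ} (A : Fin n → V → V → ℝ) (S S' : Fin r → V → V → ℝ) : Prop :=
  ∀ p q s : Fin n → ℝ, ∃ g : V →ₗᵢ[ℝ] V,
    (∀ j x y, S j (g x) (g y) = S j x y) ∧ (∀ j x y, S' j (g x) (g y) = S' j x y) ∧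
    ∀ x y, lcf p A (g x) (g y) = - lcf p A x y ∧ lcf q A (g x) (g y) = - lcf q A x y ∧
      lcf s A (g x) (g y) = - lcf s A x y

/-- The matrix of an isometry. -/
noncomputable def gmat (e : OrthonormalBasis (Fin m × Bool) ℝ V) (g : V →ₗᵢ[ℝ] V) : Mt m :=
  fun x k => ((inner ℝ (g (e k)) (e x) : ℝ) : ℂ)

theorem gmat_trf (e : OrthonormalBasis (Fin m × Bool) ℝ V) (g : V →ₗᵢ[ℝ] V) {A : V → V → ℝ}
    (hA : Bl A) : trf (gmat e g) (cm fun i j => A (e i) (e j)) =
      cm fun i j => A (g (e i)) (g (e j)) := by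
  funext k l
  simp only [trf, gmat, cm]
  rw [bl_expand hA e (g (e k)) (g (e l))]
  push_cast
  refine Finset.sum_congr rfl fun x _ => Finset.sum_congr rfl fun y _ => ?_
  rw [real_inner_comm (g (e k)) (e x), real_inner_comm (g (e l)) (e y)]
  ring

theorem inner_bl : Bl (fun x y : V => (inner ℝ x y : ℝ)) where
  add _ _ _ := inner_add_left _ _ _
  smul _ _ _ := real_inner_smul_left _ _ _
  add' _ _ _ := inner_add_right _ _ _
  smul' _ _ _ := real_inner_smul_right _ _ _

theorem cm_inner (e : OrthonormalBasis (Fin m × Bool) ℝ V) :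
    (cm fun i j => (inner ℝ (e i) (e j) : ℝ)) = (idM : Mt m) := by
  funext i j
  simp only [cm, idM, orthonormal_iff_ite.mp e.orthonormal i j]
  split_ifs <;> simp

theorem gmat_id (e : OrthonormalBasis (Fin m × Bool) ℝ V) (g : V →ₗᵢ[ℝ] V) :
    trf (gmat e g) (idM : Mt m) = idM := by
  have h := gmat_trf e g (inner_bl (V := V))
  rw [cm_inner] at h
  rw [h, ← cm_inner e]
  funext i j
  simp only [cm, LinearIsometry.inner_map_map]

theorem gmat_neg (e : OrthonormalBasis (Fin m × Bool) ℝ V) (g : V →ₗᵢ[ℝ] V) {A : V → V → ℝ}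
    (hA : Bl A) (h : ∀ x y, A (g x) (g y) = - A x y) :
    trf (gmat e g) (cm fun i j => A (e i) (e j)) = -cm fun i j => A (e i) (e j) := by
  rw [gmat_trf e g hA]
  funext i j
  simp only [cm, h, Pi.neg_apply, Complex.ofReal_neg]

theorem gmat_fix (e : OrthonormalBasis (Fin m × Bool) ℝ V) (g : V →ₗᵢ[ℝ] V) {A : V → V → ℝ}
    (hA : Bl A) (h : ∀ x y, A (g x) (g y) = A x y) :
    trf (gmat e g) (cm fun i j => A (e i) (e j)) = cm fun i j => A (e i) (e j) := by
  rw [gmat_trf e g hA]
  funext i j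
  simp only [cm, h]

/-- positive definite forms -/
def Pdf (S : V → V → ℝ) : Prop := SymForm S ∧ ∀ x, x ≠ 0 → 0 < S x x

theorem Pdf.pd (e : OrthonormalBasis (Fin m × Bool) ℝ V) {S : V → V → ℝ} (h : Pdf S) :
    PD (fun i j => S (e i) (e j)) := by
  refine ⟨fun i j => h.1.symm (e j) (e i), fun x hx => ?_⟩
  have hb := h.1.bl
  set v : V := ∑ i, x i • e i with hv
  have hv0 : v ≠ 0 := by
    intro h0
    apply hx
    funext i
    have h1 : (inner ℝ (e i) v : ℝ) = x i := by
      rw [hv, inner_sum, Finset.sum_eq_single i]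
      · rw [real_inner_smul_right, real_inner_self_eq_norm_sq, e.norm_eq_one]
        ring
      · intro j _ hj
        rw [real_inner_smul_right, e.orthonormal.2 (Ne.symm hj), mul_zero]
      · intro h
        exact absurd (Finset.mem_univ _) h
    rw [h0, inner_zero_right] at h1
    exact h1.symm
  have h1 := h.2 v hv0
  rw [bl_expand hb e v v] at h1
  have h2 : ∀ i, (inner ℝ (e i) v : ℝ) = x i := by
    intro i
    rw [hv, inner_sum, Finset.sum_eq_single i]
    · rw [real_inner_smul_right, real_inner_self_eq_norm_sq, e.norm_eq_one]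
      ring
    · intro j _ hj
      rw [real_inner_smul_right, e.orthonormal.2 (Ne.symm hj), mul_zero]
    · intro h
      exact absurd (Finset.mem_univ _) h
  simp only [h2] at h1
  refine h1.trans_le (le_of_eq ?_)
  exact Finset.sum_congr rfl fun i _ => Finset.sum_congr rfl fun j _ => by ring

theorem base_PC (e : OrthonormalBasis (Fin m × Bool) ℝ V) {g : V →ₗᵢ[ℝ] V} {δ : ℝ} (hδ : 0 ≤ δ)
    {r : ℕ} {S S' : Fin r → V → V → ℝ} (hS : ∀ j, Pdf (S j)) (hS' : ∀ j, Pdf (S' j))
    (h1 : ∀ j x y, S j (g x) (g y) = S j x y) (h2 : ∀ j x y, S' j (g x) (g y) = S' j x y) :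
    eL (cx (cp e (base δ S S'))) ∈ PC (gmat e g) 1 := by
  have e1 : (cx (cp e (base δ S S')) : C4 m) = fun i j k l => (fun i j k l => (δ : ℂ) *
      cx (uT : T4 m) i j k l : C4 m) i j k l + (fun i j k l => ∑ a : Fin r, (fun a => (cx
      (knM (fun i j => S a (e i) (e j)) (fun i j => S' a (e i) (e j))) : C4 m)) a i j k l :
        C4 m) i j k l := by
    funext i j k l
    simp only [cx, cp, base, knM, kn, uT, cp_unit]
    push_cast
    rfl
  have e2 : GLi (gmat e g) [one' m, one' m] := by
    intro T hT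
    have : T = one' m := by simpa using hT
    rw [this]
    exact ⟨pd_one, by rw [cm_one]; exact gmat_id e g⟩
  have e3 : ∀ a, GLi (gmat e g) [fun i j => S a (e i) (e j), fun i j => S' a (e i) (e j)] := by
    intro a T hT
    rcases List.mem_cons.1 hT with h | h
    · rw [h]
      exact ⟨(hS a).pd e, gmat_fix e g (hS a).1.bl (h1 a)⟩
    · have : T = fun i j => S' a (e i) (e j) := by simpa using h
      rw [this]
      exact ⟨(hS' a).pd e, gmat_fix e g (hS' a).1.bl (h2 a)⟩
  rw [e1, eL_add, eL_smul, eL_sum]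
  refine AddSubmonoid.add_mem _ ?_ (AddSubmonoid.sum_mem _ fun a _ => ?_)
  · have h := PC_gen (G := gmat e g) (n := 1) (r := 2 * δ) (by positivity) e2 rfl
    convert h using 1
    rw [eL_unit, pr, List.map_cons, List.map_cons, List.map_nil, List.prod_cons, List.prod_cons,
      List.prod_nil, mul_one, xs_one, smul_smul, sq]
    congr 1
    push_cast
    ring
  · have h := PC_gen (G := gmat e g) (n := 1) (r := 4) (by positivity) (e3 a) rfl
    convert h using 1
    rw [eL_kn, pr, List.map_cons, List.map_cons, List.map_nil, List.prod_cons, List.prod_cons,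
      List.prod_nil, mul_one]
    congr 1
    push_cast
    ring

theorem gbc_neg (e : OrthonormalBasis (Fin m × Bool) ℝ V) (R : V → V → V → V → ℝ) :
    (-1) ^ m * gbc e (negT R) = gbc e R := by
  rw [gbc_eq]
  unfold gbc gm cp negT
  congr 1
  refine Finset.sum_congr rfl fun σ _ => Finset.sum_congr rfl fun τ _ => ?_
  simp only [neg_neg]
  rfl

theorem gbc_gm (e : OrthonormalBasis (Fin m × Bool) ℝ V) (R : V → V → V → V → ℝ) :
    gbc e R = 1 / ((8 * Real.pi) ^ m * m.factorial) * gm (fun _ : Fin m => cp e R) := by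
  rw [← gbc_neg e R, gbc_eq]
  congr 2
  funext _
  funext i j k l
  simp only [cp, negT, neg_neg]

/-- The sum of `D` and the curvature tensors of the skew forms. -/
noncomputable def plusSkew {n : ℕ} (D : V → V → V → V → ℝ) (A : Fin n → V → V → ℝ)
    (x y z w : V) : ℝ := D x y z w + ∑ a, skewCurv (A a) x y z w

/-- the positive definite case -/
theorem rev_pdf (e : OrthonormalBasis (Fin m × Bool) ℝ V) {δ : ℝ} (hδ : 0 ≤ δ)
    {n r : ℕ} {A : Fin n → V → V → ℝ} {S S' : Fin r → V → V → ℝ} (hA : ∀ a, SkewForm (A a))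
    (hS : ∀ j, Pdf (S j)) (hS' : ∀ j, Pdf (S' j)) (h : RevTri A S S') :
    gbc e (base δ S S') ≤ gbc e (plusSkew (base δ S S') A) := by
  rw [gbc_gm, gbc_gm]
  have hπ := Real.pi_pos
  have hc : 0 < 1 / ((8 * Real.pi) ^ m * (m.factorial : ℝ)) := by positivity
  refine mul_le_mul_of_nonneg_left ?_ hc.le
  refine gm_rev (D := cp e (base δ S S')) (A := fun a i j => A a (e i) (e j))
    (fun a i j => (hA a).anti _ _) fun p q s => ?_
  obtain ⟨g, h1, h2, h3⟩ := h p q s
  refine ⟨gmat e g, gmat_id e g, ?_, ?_, ?_, base_PC e hδ hS hS' h1 h2⟩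
  · rw [rc_cm]
    exact gmat_neg e g (skew_bl (lcf_skew hA p)) fun x y => (h3 x y).1
  · rw [rc_cm]
    exact gmat_neg e g (skew_bl (lcf_skew hA q)) fun x y => (h3 x y).2.1
  · rw [rc_cm]
    exact gmat_neg e g (skew_bl (lcf_skew hA s)) fun x y => (h3 x y).2.2

theorem mono_pdf (e : OrthonormalBasis (Fin m × Bool) ℝ V) {δ : ℝ} (hδ : 0 ≤ δ)
    {r : ℕ} {S S' : Fin r → V → V → ℝ} (hS : ∀ j, Pdf (S j)) (hS' : ∀ j, Pdf (S' j)) :
    roundGB m δ ≤ gbc e (base δ S S') := by
  have h0 : roundGB m δ = gbc e (fun x y z w => δ * unitT x y z w) := by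
    rw [← gbc_unit e, gbc_neg]
  rw [h0, gbc_gm, gbc_gm]
  have hπ := Real.pi_pos
  have hc : 0 < 1 / ((8 * Real.pi) ^ m * (m.factorial : ℝ)) := by positivity
  refine mul_le_mul_of_nonneg_left ?_ hc.le
  have h1 := base_PC e (g := LinearIsometry.id) hδ (r := 0) (S := fun j => j.elim0)
    (S' := fun j => j.elim0) (fun j => j.elim0) (fun j => j.elim0) (fun j => j.elim0)
    (fun j => j.elim0)
  have h2 := base_PC e (g := LinearIsometry.id) (le_refl (0 : ℝ)) hS hS' (fun j x y => rfl)
    (fun j x y => rfl)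
  have h3 := gm_mono (gmat_id e _) h1 h2
  refine (le_of_eq ?_).trans (h3.trans (le_of_eq ?_))
  · congr 1
    funext _ i j k l
    simp only [cp, base, Finset.univ_eq_empty, Finset.sum_empty, add_zero]
  · congr 1
    funext _ i j k l
    simp only [cp, base, Finset.univ_eq_empty, Finset.sum_empty, add_zero, zero_mul, zero_add]

/-- perturbation -/
noncomputable def ept (ε : ℝ) (S : V → V → ℝ) (x y : V) : ℝ := S x y + ε * inner ℝ x y

theorem ept_pdf {S : V → V → ℝ} (h : Psd S) {ε : ℝ} (hε : 0 < ε) : Pdf (ept ε S) := by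
  refine ⟨⟨fun x x' y => ?_, fun t x y => ?_, fun x y => ?_⟩, fun x hx => ?_⟩
  · simp only [ept, h.1.add, inner_add_left]
    ring
  · simp only [ept, h.1.smul, real_inner_smul_left]
    ring
  · simp only [ept, h.1.symm x y]
    rw [real_inner_comm]
  · have h1 := h.2 x
    have h2 : 0 < (inner ℝ x x : ℝ) := real_inner_self_pos.2 hx
    simp only [ept]
    positivity

theorem ept_rev {n r : ℕ} {A : Fin n → V → V → ℝ} {S S' : Fin r → V → V → ℝ}
    (h : RevTri A S S') (ε : ℝ) : RevTri A (fun j => ept ε (S j)) (fun j => ept ε (S' j)) := by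
  intro p q s
  obtain ⟨g, h1, h2, h3⟩ := h p q s
  refine ⟨g, fun j x y => ?_, fun j x y => ?_, h3⟩
  · simp only [ept, h1, LinearIsometry.inner_map_map]
  · simp only [ept, h2, LinearIsometry.inner_map_map]

theorem base_cont (e : OrthonormalBasis (Fin m × Bool) ℝ V) (δ : ℝ)
    {n r : ℕ} (A : Fin n → V → V → ℝ) (S S' : Fin r → V → V → ℝ) :
    Continuous fun ε : ℝ => gbc e (plusSkew (base δ (fun j => ept ε (S j))
      (fun j => ept ε (S' j))) A) := by
  unfold gbc plusSkew base kn ept
  fun_prop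

theorem base_cont' (e : OrthonormalBasis (Fin m × Bool) ℝ V) (δ : ℝ)
    {r : ℕ} (S S' : Fin r → V → V → ℝ) :
    Continuous fun ε : ℝ => gbc e (base δ (fun j => ept ε (S j)) (fun j => ept ε (S' j))) := by
  unfold gbc base kn ept
  fun_prop

theorem ept_zero (S : V → V → ℝ) : ept 0 S = S := by
  funext x y
  simp [ept]

/-- The comparison theorem. -/
theorem rev_main (e : OrthonormalBasis (Fin m × Bool) ℝ V) {δ : ℝ} (hδ : 0 ≤ δ)
    {n r : ℕ} {A : Fin n → V → V → ℝ} {S S' : Fin r → V → V → ℝ} (hA : ∀ a, SkewForm (A a))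
    (hS : ∀ j, Psd (S j)) (hS' : ∀ j, Psd (S' j)) (h : RevTri A S S') :
    gbc e (base δ S S') ≤ gbc e (plusSkew (base δ S S') A) := by
  have h1 := ((base_cont e δ A S S').tendsto 0).mono_left
    (nhdsWithin_le_nhds (s := Set.Ioi 0))
  have h2 := ((base_cont' e δ S S').tendsto 0).mono_left
    (nhdsWithin_le_nhds (s := Set.Ioi 0))
  simp only [ept_zero] at h1 h2
  refine le_of_tendsto_of_tendsto h2 h1 ?_
  filter_upwards [self_mem_nhdsWithin] with ε hε
  exact rev_pdf e hδ hA (fun j => ept_pdf (hS j) hε) (fun j => ept_pdf (hS' j) hε) (ept_rev h ε)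

theorem mono_main (e : OrthonormalBasis (Fin m × Bool) ℝ V) {δ : ℝ} (hδ : 0 ≤ δ)
    {r : ℕ} {S S' : Fin r → V → V → ℝ} (hS : ∀ j, Psd (S j)) (hS' : ∀ j, Psd (S' j)) :
    roundGB m δ ≤ gbc e (base δ S S') := by
  have h2 := ((base_cont' e δ S S').tendsto 0).mono_left
    (nhdsWithin_le_nhds (s := Set.Ioi 0))
  simp only [ept_zero] at h2
  refine ge_of_tendsto h2 ?_
  filter_upwards [self_mem_nhdsWithin] with ε hε
  exact mono_pdf e hδ (fun j => ept_pdf (hS j) hε) (fun j => ept_pdf (hS' j) hε)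

end forms

end Pool.Agent.U661.RV
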