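import Pool.Agent.Y195.HF.Top
import Mathlib.LinearAlgebra.CliffordAlgebra.Contraction

/-!
# The top power of a nondegenerate bivector does not vanish
-/

set_option autoImplicit false

namespace Pool.Agent.U661.RV

open Pool.Agent.Y195.HF

section ctr

variable {M : Type} [AddCommGroup M] [Module ℂ M]

/-- contraction with a covector -/
noncomputable def ctr (d : Module.Dual ℂ M) : ExteriorAlgebra ℂ M →ₗ[ℂ] ExteriorAlgebra ℂ M :=
  CliffordAlgebra.contractLeft (Q := (0 : QuadraticForm ℂ M)) d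

theorem ctr_ι_mul (d : Module.Dual ℂ M) (a : M) (b : ExteriorAlgebra ℂ M) :
    ctr d (ExteriorAlgebra.ι ℂ a * b) = d a • b - ExteriorAlgebra.ι ℂ a * ctr d b :=
  CliffordAlgebra.contractLeft_ι_mul d a b

theorem ctr_one (d : Module.Dual ℂ M) : ctr d (1 : ExteriorAlgebra ℂ M) = 0 :=
  CliffordAlgebra.contractLeft_one _ d

/-- the bivector `∑ u_a ∧ v_a` -/
noncomputable def om {κ : Type} [Fintype κ] (u v : κ → M) : Zc M := ∑ a, bv (u a) (v a)

/-- contraction of the bivector -/
noncomputable def al {κ : Type} [Fintype κ] (u v : κ → M) (d : Module.Dual ℂ M) : M :=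
  ∑ a, (d (u a) • v a - d (v a) • u a)

theorem ctr_om_mul {κ : Type} [Fintype κ] (u v : κ → M) (d : Module.Dual ℂ M)
    (x : ExteriorAlgebra ℂ M) : ctr d (zval (om u v) * x) =
      ExteriorAlgebra.ι ℂ (al u v d) * x + zval (om u v) * ctr d x := by
  unfold om al
  rw [map_sum, Finset.sum_mul, map_sum, map_sum, Finset.sum_mul, Finset.sum_mul,
    ← Finset.sum_add_distrib]
  refine Finset.sum_congr rfl fun a _ => ?_
  rw [bv_coe, mul_assoc, ctr_ι_mul, ctr_ι_mul, map_sub, map_smul, map_smul]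
  simp only [mul_sub, sub_mul, smul_mul_assoc, mul_smul_comm, mul_assoc]
  abel

theorem ctr_om_pow {κ : Type} [Fintype κ] (u v : κ → M) (d : Module.Dual ℂ M) (k : ℕ) :
    ctr d (zval (om u v) ^ (k + 1)) =
      ((k + 1 : ℕ) : ℂ) • (ExteriorAlgebra.ι ℂ (al u v d) * zval (om u v) ^ k) := by
  have hc : ∀ y : ExteriorAlgebra ℂ M, zval (om u v) * y = y * zval (om u v) := by
    intro y
    have := (om u v).2
    exact (Subalgebra.mem_center_iff.1 this y).symm
  induction k with
  | zero =>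
    rw [zero_add, pow_one, pow_zero, mul_one]
    have := ctr_om_mul u v d 1
    rw [mul_one, mul_one, ctr_one, mul_zero, add_zero] at this
    rw [this]
    simp
  | succ k ih =>
    rw [pow_succ' _ (k + 1), ctr_om_mul, ih, mul_smul_comm, ← mul_assoc, hc, mul_assoc,
      ← pow_succ']
    have : ((k + 1 + 1 : ℕ) : ℂ) = ((k + 1 : ℕ) : ℂ) + 1 := by push_cast; ring
    rw [this, add_smul, one_smul]
    abel

end ctr

section top

variable {I : Type} [Fintype I] [DecidableEq I]

/-- coordinate -/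
noncomputable def co (i : I) : Module.Dual ℂ (I → ℂ) := LinearMap.proj i

theorem sum_al {κ : Type} [Fintype κ] (u v : κ → I → ℂ) :
    ∑ i, ExteriorAlgebra.ι ℂ (Pi.single i (1 : ℂ) : I → ℂ) *
      ExteriorAlgebra.ι ℂ (al u v (co i)) = (2 : ℂ) • zval (om u v) := by
  have hb : ∀ w : I → ℂ, ∑ i, w i • ExteriorAlgebra.ι ℂ (Pi.single i (1 : ℂ) : I → ℂ) =
      ExteriorAlgebra.ι ℂ w := by
    intro w
    simp only [← map_smul]
    rw [← map_sum]
    congr 1
    funext j
    rw [Finset.sum_apply, Finset.sum_eq_single j]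
    · simp
    · intro i _ hi
      simp [Ne.symm hi]
    · intro h
      exact absurd (Finset.mem_univ _) h
  have h1 : ∀ i, ExteriorAlgebra.ι ℂ (Pi.single i (1 : ℂ) : I → ℂ) *
      ExteriorAlgebra.ι ℂ (al u v (co i)) =
      ∑ a, ((u a i • ExteriorAlgebra.ι ℂ (Pi.single i (1 : ℂ) : I → ℂ)) *
        ExteriorAlgebra.ι ℂ (v a) - (v a i • ExteriorAlgebra.ι ℂ (Pi.single i (1 : ℂ) : I → ℂ)) *
        ExteriorAlgebra.ι ℂ (u a)) := by
    intro i
    unfold al
    rw [map_sum, Finset.mul_sum]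
    refine Finset.sum_congr rfl fun a _ => ?_
    rw [map_sub, map_smul, map_smul, mul_sub, mul_smul_comm, mul_smul_comm, smul_mul_assoc,
      smul_mul_assoc]
    rfl
  rw [Finset.sum_congr rfl fun i _ => h1 i, Finset.sum_comm]
  unfold om
  rw [map_sum, Finset.smul_sum]
  refine Finset.sum_congr rfl fun a _ => ?_
  rw [Finset.sum_sub_distrib, ← Finset.sum_mul, ← Finset.sum_mul, hb, hb, bv_coe,
    iota_anti (v a) (u a), two_smul]
  abel

theorem om_pow_ne_zero {κ : Type} [Fintype κ] (u v : κ → I → ℂ) {n : ℕ}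
    (hn : Fintype.card I = 2 * n) (hs : ∀ w, ∃ d, al u v d = w) :
    ∀ k, k ≤ n → zval (om u v) ^ k ≠ 0 := by
  intro k
  induction k with
  | zero =>
    intro _
    rw [pow_zero]
    exact one_ne_zero
  | succ k ih =>
    intro hk h0
    apply ih (by omega)
    have h1 : ∀ w : I → ℂ, ExteriorAlgebra.ι ℂ w * zval (om u v) ^ k = 0 := by
      intro w
      obtain ⟨d, hd⟩ := hs w
      have h2 := ctr_om_pow u v d k
      rw [h0, map_zero, hd] at h2
      have h3 : ((k + 1 : ℕ) : ℂ) ≠ 0 := by exact_mod_cast Nat.succ_ne_zero k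
      exact (smul_eq_zero.1 h2.symm).resolve_left h3
    have h2 : ∀ i : I, (1 : ℂ) • zval (om u v) ^ k -
        ExteriorAlgebra.ι ℂ (Pi.single i (1 : ℂ) : I → ℂ) * ctr (co i) (zval (om u v) ^ k) = 0 := by
      intro i
      have h3 := ctr_ι_mul (co i) (Pi.single i (1 : ℂ)) (zval (om u v) ^ k)
      rw [h1, map_zero] at h3
      rw [h3]
      congr 2
      simp [co]
    have h3 : ∑ i : I, ((1 : ℂ) • zval (om u v) ^ k -
        ExteriorAlgebra.ι ℂ (Pi.single i (1 : ℂ) : I → ℂ) * ctr (co i) (zval (om u v) ^ k)) = 0 :=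
      Finset.sum_eq_zero fun i _ => h2 i
    rw [Finset.sum_sub_distrib, Finset.sum_const, Finset.card_univ, hn, one_smul] at h3
    rcases Nat.eq_zero_or_pos k with hk0 | hk0
    · subst hk0
      rw [pow_zero]
      simp only [pow_zero, ctr_one, mul_zero, Finset.sum_const_zero, sub_zero] at h3
      rw [← Nat.cast_smul_eq_nsmul ℂ] at h3
      have h4 : ((2 * n : ℕ) : ℂ) ≠ 0 := by
        have : 2 * n ≠ 0 := by omega
        exact_mod_cast this
      exact (smul_eq_zero.1 h3).resolve_left h4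
    · obtain ⟨j, rfl⟩ : ∃ j, k = j + 1 := ⟨k - 1, by omega⟩
      have h4 : ∑ i : I, ExteriorAlgebra.ι ℂ (Pi.single i (1 : ℂ) : I → ℂ) *
          ctr (co i) (zval (om u v) ^ (j + 1)) =
          ((2 * (j + 1) : ℕ) : ℂ) • zval (om u v) ^ (j + 1) := by
        simp only [ctr_om_pow, mul_smul_comm, ← mul_assoc]
        rw [← Finset.smul_sum, ← Finset.sum_mul, sum_al, smul_mul_assoc, ← pow_succ', smul_smul]
        congr 1
        push_cast
        ring
      rw [h4, ← Nat.cast_smul_eq_nsmul ℂ, ← sub_smul] at h3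
      have h5 : ((2 * n : ℕ) : ℂ) - ((2 * (j + 1) : ℕ) : ℂ) ≠ 0 := by
        rw [sub_ne_zero]
        have : 2 * n ≠ 2 * (j + 1) := by omega
        exact_mod_cast this
      exact (smul_eq_zero.1 h3).resolve_left h5

end top

end Pool.Agent.U661.RV
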