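import Pool.Agent.U661.RV.Geo
import Mathlib.Analysis.InnerProductSpace.Projection.Reflection

/-!
# Examples and integrated forms
-/

set_option autoImplicit false

namespace Pool.Agent.U661.RV

open Finset Pool.Agent.Y195.HF Pool.Agent.W666.GB Pool.Agent.W669.HD Pool.Agent.U661.HS

variable {m : ℕ} {V : Type} [NormedAddCommGroup V] [InnerProductSpace ℝ V]

omit [NormedAddCommGroup V] [InnerProductSpace ℝ V] in
theorem lcf_rev {n : ℕ} {A : Fin n → V → V → ℝ} {g : V → V}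
    (h : ∀ a x y, A a (g x) (g y) = - A a x y) (p : Fin n → ℝ) (x y : V) :
    lcf p A (g x) (g y) = - lcf p A x y := by
  simp only [lcf, h]
  rw [← Finset.sum_neg_distrib]
  exact Finset.sum_congr rfl fun a _ => by ring

/-- One isometry which reverses all the skew forms. -/
theorem rev_fixed {n r : ℕ} {A : Fin n → V → V → ℝ} {S S' : Fin r → V → V → ℝ} (g : V →ₗᵢ[ℝ] V)
    (hA : ∀ a x y, A a (g x) (g y) = - A a x y) (hS : ∀ j x y, S j (g x) (g y) = S j x y)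
    (hS' : ∀ j x y, S' j (g x) (g y) = S' j x y) : RevTri A S S' := fun p q s =>
  ⟨g, hS, hS', fun x y => ⟨lcf_rev hA p x y, lcf_rev hA q x y, lcf_rev hA s x y⟩⟩

/-- An orthogonal complex structure is an isometry. -/
noncomputable def csIso {J : V →ₗ[ℝ] V} (hJ : CStr J) : V →ₗᵢ[ℝ] V :=
  J.isometryOfInner fun x y => hJ.isom x y

theorem csIso_apply {J : V →ₗ[ℝ] V} (hJ : CStr J) (x : V) : csIso hJ x = J x := rfl

theorem antiJ_rev {J : V →ₗ[ℝ] V} (hJ : CStr J) {A : V → V → ℝ} (hb : Bl A) (hA : AntiJ J A)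
    (x y : V) : A (J x) (J y) = - A x y := by
  rw [hA, hJ.sq]
  have := hb.smul' (-1) x y
  rw [neg_one_smul] at this
  rw [this]
  ring

/-- forms of type `(2,0) + (0,2)` for a fixed complex structure -/
theorem rev_antiJ {n r : ℕ} {A : Fin n → V → V → ℝ} {S S' : Fin r → V → V → ℝ}
    {J : V →ₗ[ℝ] V} (hJ : CStr J) (hs : ∀ a, SkewForm (A a)) (hA : ∀ a, AntiJ J (A a))
    (hS : ∀ j x y, S j (J x) (J y) = S j x y) (hS' : ∀ j x y, S' j (J x) (J y) = S' j x y) :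
    RevTri A S S' :=
  rev_fixed (csIso hJ) (fun a x y => antiJ_rev hJ (skew_bl (hs a)) (hA a) x y) hS hS'

/-- Off-diagonal skew forms, block diagonal symmetric forms. -/
theorem rev_block {n r : ℕ} {A : Fin n → V → V → ℝ} {S S' : Fin r → V → V → ℝ}
    (U : Submodule ℝ V) [U.HasOrthogonalProjection] (hs : ∀ a, SkewForm (A a))
    (hA : ∀ a, (∀ x ∈ U, ∀ y ∈ U, A a x y = 0) ∧ ∀ x ∈ Uᗮ, ∀ y ∈ Uᗮ, A a x y = 0)
    (hS : ∀ j, SymForm (S j) ∧ ∀ x ∈ U, ∀ y ∈ Uᗮ, S j x y = 0)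
    (hS' : ∀ j, SymForm (S' j) ∧ ∀ x ∈ U, ∀ y ∈ Uᗮ, S' j x y = 0) : RevTri A S S' := by
  have key : ∀ x : V, ∃ u ∈ U, ∃ v ∈ Uᗮ, x = u + v ∧ U.reflection x = u + (-1 : ℝ) • v := by
    intro x
    refine ⟨U.starProjection x, Submodule.starProjection_apply_mem U x,
      x - U.starProjection x, Submodule.sub_starProjection_mem_orthogonal x, by abel, ?_⟩
    rw [Submodule.reflection_apply]
    module
  have sy : ∀ {B : V → V → ℝ}, SymForm B → (∀ x ∈ U, ∀ y ∈ Uᗮ, B x y = 0) →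
      ∀ x y, B (U.reflection x) (U.reflection y) = B x y := by
    intro B hB h0 x y
    obtain ⟨u, hu, v, hv, hx, hx'⟩ := key x
    obtain ⟨u', hu', v', hv', hy, hy'⟩ := key y
    have hb := hB.bl
    rw [hx', hy', hx, hy, hb.add, hb.add, hb.add', hb.add', hb.add', hb.add', hb.smul, hb.smul,
      hb.smul', hb.smul', h0 u hu v' hv', hB.symm u' v, h0 u' hu' v hv]
    ring
  refine rev_fixed U.reflection.toLinearIsometry (fun a x y => ?_)
    (fun j x y => sy (hS j).1 (hS j).2 x y) (fun j x y => sy (hS' j).1 (hS' j).2 x y)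
  change A a (U.reflection x) (U.reflection y) = - A a x y
  obtain ⟨u, hu, v, hv, hx, hx'⟩ := key x
  obtain ⟨u', hu', v', hv', hy, hy'⟩ := key y
  have hb := skew_bl (hs a)
  rw [hx', hy', hx, hy, hb.add, hb.add, hb.add', hb.add', hb.add', hb.add', hb.smul, hb.smul,
    hb.smul', hb.smul', (hA a).1 u hu u' hu', (hA a).2 v hv v' hv']
  ring

/-- Skew forms in the span of a Clifford family with at least four members. -/
theorem rev_cliff {k n : ℕ} (hk : 4 ≤ k) {J : Fin k → V →ₗ[ℝ] V} (hJ : Cliff J)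
    (c : Fin n → Fin k → ℝ) : RevTri (r := 0) (fun a x y => ∑ i, c a i * kf (J i) x y)
      (fun j => j.elim0) (fun j => j.elim0) := by
  intro p q s
  obtain ⟨J', hJ', -, -, h1, h2, h3⟩ := tri_cliff (V := V) hk hJ c (le_refl (0 : ℝ)) p q s
  have hb : ∀ p : Fin n → ℝ, Bl (lcf p fun a x y => ∑ i, c a i * kf (J i) x y) := fun p =>
    skew_bl (lcf_skew (fun a => span_skew hJ c a) p)
  exact ⟨csIso hJ', fun j => j.elim0, fun j => j.elim0, fun x y =>
    ⟨antiJ_rev hJ' (hb p) h1 x y, antiJ_rev hJ' (hb q) h2 x y, antiJ_rev hJ' (hb s) h3 x y⟩⟩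

/-- The pointwise hypothesis: `R = δ unitT + ∑ kn (S j) (S' j) + ∑ skewCurv (A a)`. -/
def PosRev (δ : ℝ) (R : V → V → V → V → ℝ) : Prop :=
  ∃ (n r : ℕ) (A : Fin n → V → V → ℝ) (S S' : Fin r → V → V → ℝ), (∀ a, SkewForm (A a)) ∧
    (∀ j, Psd (S j)) ∧ (∀ j, Psd (S' j)) ∧ RevTri A S S' ∧ R = plusSkew (base δ S S') A

theorem posRev_bound (e : OrthonormalBasis (Fin m × Bool) ℝ V) {R : V → V → V → V → ℝ}
    {δ : ℝ} (hδ : 0 ≤ δ) (h : PosRev δ R) : roundGB m δ ≤ gbc e R := by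
  obtain ⟨n, r, A, S, S', hA, hS, hS', hR, rfl⟩ := h
  exact (mono_main e hδ hS hS').trans (rev_main e hδ hA hS hS' hR)

theorem field_rev {M : Type} [MeasurableSpace M] (μ : MeasureTheory.Measure M)
    (K : CurvField m M) (δ : M → ℝ) (h : ∀ p, 0 ≤ δ p ∧ PosRev (δ p) (K.R p)) :
    0 ≤ ∫ p, K.gb p ∂μ ∧
      (MeasureTheory.Integrable K.gb μ → μ {p | 0 < δ p} ≠ 0 → 0 < ∫ p, K.gb p ∂μ) := by
  have h1 : ∀ p, roundGB m (δ p) ≤ K.gb p := fun p => posRev_bound (K.e p) (h p).1 (h p).2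
  have h0 : ∀ p, 0 ≤ K.gb p := fun p => (roundGB_nonneg (h p).1).trans (h1 p)
  refine ⟨MeasureTheory.integral_nonneg h0, fun hi hμ => ?_⟩
  rw [MeasureTheory.integral_pos_iff_support_of_nonneg h0 hi]
  refine lt_of_lt_of_le (pos_iff_ne_zero.mpr hμ) (MeasureTheory.measure_mono fun p hp => ?_)
  have h2 := roundGB_pos (m := m) (show 0 < δ p from hp)
  exact (h2.trans_le (h1 p)).ne'

end Pool.Agent.U661.RV
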