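import Pool.Agent.U661.RV.Mix

/-!
# Positivity for families reversed by isometries
-/

set_option autoImplicit false

namespace Pool.Agent.U661.RV

open Finset Pool.Agent.Y195.HF Pool.Agent.W666.GB Pool.Agent.W669.HD Pool.Agent.U661.HS

variable {m : ℕ}

/-- the linear map of a matrix, acting in the same way on both halves -/
noncomputable def lin (G : Mt m) : (I2 m → ℂ) →ₗ[ℂ] (I2 m → ℂ) :=
  Fintype.linearCombination ℂ (fun p : I2 m => cv (G p.1) p.2)

theorem lin_th (G : Mt m) (s : Bool) (x : Fin m × Bool) : lin G (th m s x) = cv (G x) s := by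
  rw [lin, th, Fintype.linearCombination_apply_single, one_smul]

/-- the transformed matrix -/
noncomputable def trf (G P : Mt m) : Mt m := fun k l => ∑ x, ∑ y, P x y * (G x k * G y l)

theorem lin_ff (G P : Mt m) (s t : Bool) : ExteriorAlgebra.map (lin G) (zval (ff s t P)) =
    zval (ff s t (trf G P)) := by
  rw [map_ff_gen]
  congr 1
  simp only [lin_th, bv_cv, Finset.smul_sum, smul_smul]
  unfold ff trf
  have h1 : ∀ x, (∑ y, ∑ k, ∑ l, (P x y * (G x k * G y l)) • bv (th m s k) (th m t l)) =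
      ∑ k, ∑ l, (∑ y, P x y * (G x k * G y l)) • bv (th m s k) (th m t l) := by
    intro x
    rw [Finset.sum_comm]
    refine Finset.sum_congr rfl fun k _ => ?_
    rw [Finset.sum_comm]
    refine Finset.sum_congr rfl fun l _ => ?_
    rw [Finset.sum_smul]
  rw [Finset.sum_congr rfl fun x _ => h1 x, Finset.sum_comm]
  refine Finset.sum_congr rfl fun k _ => ?_
  rw [Finset.sum_comm]
  refine Finset.sum_congr rfl fun l _ => ?_
  rw [Finset.sum_smul]

theorem ff_neg (s t : Bool) (P : Mt m) : ff s t (-P) = - ff s t P := by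
  have h : -P = (-1 : ℂ) • P := by module
  rw [h, ff_smul]
  module

theorem lin_g {G : Mt m} (hG : trf G idM = idM) :
    ExteriorAlgebra.map (lin G) (zval (ff false true (idM : Mt m))) =
      zval (ff false true (idM : Mt m)) := by
  rw [lin_ff, hG]

theorem det_lin {G : Mt m} (hG : trf G idM = idM) : LinearMap.det (lin G) = 1 := by
  have h := LF_map_gen (lin G) (zval (ff false true (idM : Mt m) ^ (2 * m)))
  rw [map_pow, map_pow, lin_g hG, ← map_pow] at h
  have h1 := LF_g_ne (m := m)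
  have h2 : (LinearMap.det (lin G) - 1) *
      LF m (zval (ff false true (idM : Mt m) ^ (2 * m))) = 0 := by
    rw [sub_mul, ← h, one_mul, sub_self]
  exact sub_eq_zero.mp ((mul_eq_zero.mp h2).resolve_right h1)

theorem lin_WW {G P Q R : Mt m} (hP : trf G P = -P) (hQ : trf G Q = -Q) (hR : trf G R = -R) :
    ExteriorAlgebra.map (lin G) (zval (WW P Q R)) = zval (- WW P Q R) := by
  unfold WW
  simp only [map_add, map_sub, map_smul, map_neg, lin_ff, hP, hQ, hR, ff_neg]
  module

/-- Positive definite matrices which are preserved by `G`. -/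
def GLi (G : Mt m) (L : List (Fin m × Bool → Fin m × Bool → ℝ)) : Prop :=
  ∀ S ∈ L, PD S ∧ trf G (cm S) = cm S

theorem lin_pr {G : Mt m} {L : List (Fin m × Bool → Fin m × Bool → ℝ)} (hL : GLi G L) :
    ExteriorAlgebra.map (lin G) (zval (pr L)) = zval (pr L) := by
  induction L with
  | nil => simp [pr]
  | cons S L ih =>
    have h1 := ih fun S hS => hL S (List.mem_cons_of_mem _ hS)
    have h2 : ExteriorAlgebra.map (lin G) (zval (xs S)) = zval (xs S) := by
      rw [xs, lin_ff, (hL S List.mem_cons_self).2]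
    unfold pr at h1 ⊢
    rw [List.map_cons, List.prod_cons, map_mul, map_mul, h1, h2]

theorem odd_zero {G P Q R : Mt m} (hG : trf G idM = idM) (hP : trf G P = -P) (hQ : trf G Q = -Q)
    (hR : trf G R = -R) {L : List (Fin m × Bool → Fin m × Bool → ℝ)} (hL : GLi G L) {k : ℕ}
    (hk : Odd k) (n : ℕ) :
    Lf m (WW P Q R ^ k * ff false true (idM : Mt m) ^ n * pr L) = 0 := by
  have e := LF_map (det_lin hG) (zval (WW P Q R ^ k * ff false true (idM : Mt m) ^ n * pr L))
  have h1 : ExteriorAlgebra.map (lin G)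
      (zval (WW P Q R ^ k * ff false true (idM : Mt m) ^ n * pr L)) =
      zval ((- WW P Q R) ^ k * ff false true (idM : Mt m) ^ n * pr L) := by
    simp only [map_mul, map_pow, lin_WW hP hQ hR, lin_g hG, lin_pr hL]
  rw [h1, hk.neg_pow, neg_mul, neg_mul, map_neg, map_neg] at e
  rw [Lf_apply]
  linear_combination (-1 / 2 : ℂ) * e

theorem sum_even {m : ℕ} (f : ℕ → ℂ) (h : ∀ k, Odd k → f k = 0) :
    ∑ k ∈ Finset.range (2 * m + 1), f k = ∑ j ∈ Finset.range (m + 1), f (2 * j) := by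
  induction m with
  | zero => simp
  | succ m ih =>
    have e : 2 * (m + 1) + 1 = (2 * m + 1) + 1 + 1 := by ring
    rw [e, Finset.sum_range_succ, Finset.sum_range_succ, ih, h (2 * m + 1) ⟨m, rfl⟩, add_zero,
      Finset.sum_range_succ _ (m + 1)]
    congr 1

theorem mix_expand (x g T : Zc (I2 m → ℂ)) (n : ℕ) (s : ℂ) :
    Lf m ((x + s • g) ^ n * T) =
      ∑ k ∈ Finset.range (n + 1), ((n.choose k : ℕ) : ℂ) * Lf m (x ^ k * g ^ (n - k) * T) *
        s ^ (n - k) := by
  rw [add_pow, Finset.sum_mul, map_sum]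
  refine Finset.sum_congr rfl fun k _ => ?_
  have h : x ^ k * (s • g) ^ (n - k) * ((n.choose k : ℕ) : Zc (I2 m → ℂ)) * T =
      (((n.choose k : ℕ) : ℂ) * s ^ (n - k)) • (x ^ k * g ^ (n - k) * T) := by
    rw [smul_pow]
    simp only [Algebra.smul_def, map_mul, map_natCast]
    ring
  rw [h, map_smul, smul_eq_mul]
  ring

/-- The sign of the mixed products. -/
theorem mix_sign {G P Q R : Mt m} (hP : RSk P) (hQ : RSk Q) (hR : RSk R)
    (hG : trf G idM = idM) (hP' : trf G P = -P) (hQ' : trf G Q = -Q)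
    (hR' : trf G R = -R) {L : List (Fin m × Bool → Fin m × Bool → ℝ)} (hL : GLi G L) {N : ℕ}
    (hN : L.length + 2 * N = 2 * m) : ∃ b : ℝ, 0 ≤ b ∧
      Lf m (WW P Q R ^ (2 * N) * pr L) =
        (-1) ^ N * (b : ℂ) * Lf m (ff false true (idM : Mt m) ^ (2 * m)) := by
  have hPD : ∀ S ∈ L, PD S := fun S hS => (hL S hS).1
  set x := WW P Q R with hx
  set g : Zc (I2 m → ℂ) := ff false true (idM : Mt m) with hg
  obtain ⟨r, hr, hr'⟩ := mix_pos L hPD (2 * N) hN
  rw [← hg] at hr'
  set c := Lf m (g ^ (2 * N) * pr L) with hc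
  have hL0 : Lf m (g ^ (2 * m)) ≠ 0 := LF_g_ne
  have h0 : c ≠ 0 := by
    rw [hr']
    exact mul_ne_zero (by exact_mod_cast hr.ne') hL0
  have hev : ∀ s : ℂ, Lf m ((x + s • g) ^ (2 * N) * pr L) =
      c * ∑ j ∈ Finset.range (N + 1),
        ((((2 * N).choose (2 * j) : ℕ) : ℂ) * Lf m (x ^ (2 * j) * g ^ (2 * N - 2 * j) * pr L) / c) *
          (s ^ 2) ^ (N - j) := by
    intro s
    rw [mix_expand, sum_even _ fun k hk => by rw [odd_zero hG hP' hQ' hR' hL hk]; ring,
      Finset.mul_sum]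
    refine Finset.sum_congr rfl fun j hj => ?_
    rw [Finset.mem_range] at hj
    have e : 2 * N - 2 * j = 2 * (N - j) := by omega
    rw [e, pow_mul s]
    field_simp
  obtain ⟨b, hb, hb'⟩ := sum_sign (m := N)
    (fun j => (((2 * N).choose (2 * j) : ℕ) : ℂ) * Lf m (x ^ (2 * j) * g ^ (2 * N - 2 * j) * pr L) /
      c) (by
      simp only [mul_zero, Nat.choose_zero_right, Nat.cast_one, one_mul, pow_zero, Nat.sub_zero]
      exact div_self h0) (fun w hw => by
      obtain ⟨s, hs⟩ := IsAlgClosed.exists_pow_nat_eq w (n := 2) (by norm_num)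
      have hsim : s.im = 0 := by
        by_contra hne
        have h1 := mix_one hPD hN hP hQ hR (S := 0) (fun i j => rfl) hne
        rw [xs_zero, add_zero] at h1
        apply h1
        rw [← hx, ← hg, hev s, hs, hw, mul_zero]
      refine ⟨s.re ^ 2, sq_nonneg _, ?_⟩
      rw [← hs]
      have : s = (s.re : ℂ) := Complex.ext rfl (by rw [hsim, Complex.ofReal_im])
      rw [this]
      push_cast
      simp) (N := N) le_rfl
  refine ⟨b * r, by positivity, ?_⟩
  have h1 : Lf m (x ^ (2 * N) * pr L) = (-1) ^ N * (b : ℂ) * c := by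
    have h2 := hb'
    rw [Nat.choose_self, Nat.cast_one, one_mul, Nat.sub_self, pow_zero, mul_one,
      div_eq_iff h0] at h2
    exact h2
  rw [h1, hr']
  push_cast
  ring

theorem top_sign : 0 < (-1 : ℝ) ^ m * (Lf m (ff false true (idM : Mt m) ^ (2 * m))).re := by
  have h1 := gm_LR (uT : T4 m)
  rw [unit_gm_one, eL_unit, smul_pow, ← pow_mul, LR_apply, map_smul, map_smul, smul_eq_mul] at h1
  have h3 : ((-2 : ℂ)) ^ m = (((-2 : ℝ) ^ m : ℝ) : ℂ) := by push_cast; ring
  rw [h3, Complex.re_ofReal_mul] at h1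
  have h2 : (0 : ℝ) < 2 ^ m * (2 * m).factorial := by positivity
  rw [h1] at h2
  have h4 : (-2 : ℝ) ^ m = 2 ^ m * (-1) ^ m := by rw [← mul_pow]; norm_num
  rw [h4, mul_assoc] at h2
  rw [Lf_apply]
  exact pos_of_mul_pos_right h2 (by positivity)

/-- The cone of the products of positive definite matrices preserved by `G`. -/
noncomputable def PC (G : Mt m) (n : ℕ) : AddSubmonoid (Zc (I2 m → ℂ)) :=
  AddSubmonoid.closure {z | ∃ (r : ℝ) (L : List (Fin m × Bool → Fin m × Bool → ℝ)),
    0 ≤ r ∧ GLi G L ∧ L.length = 2 * n ∧ z = (((-1) ^ n * r : ℝ) : ℂ) • pr L}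

theorem PC_gen {G : Mt m} {n : ℕ} {r : ℝ} (hr : 0 ≤ r)
    {L : List (Fin m × Bool → Fin m × Bool → ℝ)} (hL : GLi G L) (hn : L.length = 2 * n) :
    (((-1) ^ n * r : ℝ) : ℂ) • pr L ∈ PC G n :=
  AddSubmonoid.subset_closure ⟨r, L, hr, hL, hn, rfl⟩

theorem PC_one (G : Mt m) : (1 : Zc (I2 m → ℂ)) ∈ PC G 0 := by
  have h := PC_gen (G := G) (n := 0) (r := 1) zero_le_one (L := []) (fun S hS => by simp at hS) rfl
  rwa [pow_zero, one_mul, Complex.ofReal_one, one_smul, pr, List.map_nil, List.prod_nil] at h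

theorem PC_mul {G : Mt m} {n k : ℕ} {x y : Zc (I2 m → ℂ)} (hx : x ∈ PC G n) (hy : y ∈ PC G k) :
    x * y ∈ PC G (n + k) := by
  unfold PC at hx
  induction hx using AddSubmonoid.closure_induction with
  | mem x hx =>
    obtain ⟨r, L, hr, hL, hn, rfl⟩ := hx
    unfold PC at hy
    induction hy using AddSubmonoid.closure_induction with
    | mem y hy =>
      obtain ⟨s, L', hs, hL', hk, rfl⟩ := hy
      have h := PC_gen (G := G) (n := n + k) (r := r * s) (by positivity) (L := L ++ L')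
        (fun S hS => (List.mem_append.1 hS).elim (hL S) (hL' S)) (by
          rw [List.length_append, hn, hk]
          ring)
      convert h using 1
      rw [pr, pr, pr, List.map_append, List.prod_append, smul_mul_smul_comm]
      congr 1
      push_cast
      ring
    | zero => rw [mul_zero]; exact (PC G (n + k)).zero_mem
    | add y z _ _ hy hz => rw [mul_add]; exact (PC G (n + k)).add_mem hy hz
  | zero => rw [zero_mul]; exact (PC G (n + k)).zero_mem
  | add x z _ _ hx hz => rw [add_mul]; exact (PC G (n + k)).add_mem hx hz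

theorem PC_pow {G : Mt m} {x : Zc (I2 m → ℂ)} (hx : x ∈ PC G 1) (n : ℕ) : x ^ n ∈ PC G n := by
  induction n with
  | zero => rw [pow_zero]; exact PC_one G
  | succ n ih => rw [pow_succ]; exact PC_mul ih hx

theorem PC_pos {G P Q R : Mt m} (hP : RSk P) (hQ : RSk Q) (hR : RSk R)
    (hG : trf G idM = idM) (hP' : trf G P = -P) (hQ' : trf G Q = -Q)
    (hR' : trf G R = -R) {N n : ℕ} (hN : N + n = m) {T : Zc (I2 m → ℂ)} (hT : T ∈ PC G n) :
    0 ≤ LR m (WW P Q R ^ (2 * N) * T) := by
  unfold PC at hT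
  induction hT using AddSubmonoid.closure_induction with
  | mem x hx =>
    obtain ⟨r, L, hr, hL, hn, rfl⟩ := hx
    obtain ⟨b, hb, hb'⟩ := mix_sign hP hQ hR hG hP' hQ' hR' hL (N := N) (by omega)
    rw [LR_apply, mul_smul_comm, map_smul, map_smul, ← Lf_apply, hb', smul_eq_mul,
      Complex.re_ofReal_mul]
    have e5 : (((-1 : ℂ)) ^ N * (b : ℂ)) = (((-1 : ℝ) ^ N * b : ℝ) : ℂ) := by push_cast; ring
    rw [e5, Complex.re_ofReal_mul]
    have h1 := top_sign (m := m)
    have e6 : (-1) ^ n * r * ((-1) ^ N * b *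
        (Lf m (ff false true (idM : Mt m) ^ (2 * m))).re) =
        r * b * ((-1) ^ m * (Lf m (ff false true (idM : Mt m) ^ (2 * m))).re) := by
      rw [← hN, pow_add]
      ring
    rw [e6]
    positivity
  | zero => rw [mul_zero, map_zero]
  | add x y _ _ hx hy => rw [mul_add, map_add]; exact add_nonneg hx hy

variable {κ : Type} [Fintype κ]

/-- Any three real combinations of the matrices are reversed by some orthogonal matrix for which `D`
is positive. -/
def RevFam (A : κ → Mt m) (D : Zc (I2 m → ℂ)) : Prop :=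
  ∀ p q r : κ → ℝ, ∃ G : Mt m, trf G idM = idM ∧ trf G (rc p A) = -rc p A ∧
    trf G (rc q A) = -rc q A ∧ trf G (rc r A) = -rc r A ∧ D ∈ PC G 1

theorem rc_rsk {A : κ → Mt m} (hA : ∀ a, RSk (A a)) (p : κ → ℝ) : RSk (rc p A) := by
  refine ⟨fun i j => ?_, fun i j => ?_⟩
  · simp only [rc, Finset.sum_apply, Pi.smul_apply, smul_eq_mul, map_sum, map_mul,
      Complex.conj_ofReal, (hA _).1]
  · simp only [rc, Finset.sum_apply, Pi.smul_apply, smul_eq_mul, (hA _).2 i j]
    rw [← Finset.sum_neg_distrib]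
    exact Finset.sum_congr rfl fun a _ => by ring

theorem rev_pos {A : κ → Mt m} (hA : ∀ a, RSk (A a)) {D : Zc (I2 m → ℂ)} (h : RevFam A D)
    {N n : ℕ} (hN : N + n = m) : 0 ≤ LR m ((∑ a, qi (A a)) ^ N * D ^ n) := by
  classical
  rw [← xf_sq]
  refine gauss_pos (xf A) (D ^ n) (LR m) N fun ξ => ?_
  obtain ⟨G, hG, h1, h2, h3, hD⟩ := h (fun a => ξ (a, 0)) (fun a => ξ (a, 1))
    (fun a => ξ (a, 2))
  rw [xf_sum]
  exact PC_pos (rc_rsk hA _) (rc_rsk hA _) (rc_rsk hA _) hG h1 h2 h3 hN (PC_pow hD n)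

/-- The algebraic comparison theorem. -/
theorem gm_rev {D : T4 m} {A : κ → Fin m × Bool → Fin m × Bool → ℝ}
    (hA : ∀ a i j, A a j i = - A a i j)
    (h : RevFam (fun a => cm (A a)) (eL (cx D))) :
    gm (fun _ : Fin m => D) ≤ gm (fun _ : Fin m =>
      (fun i j k l => D i j k l + ∑ a, scR (A a) i j k l : T4 m)) := by
  have hA' : ∀ a, RSk (cm (A a) : Mt m) := fun a =>
    ⟨fun i j => by simp only [cm, Complex.conj_ofReal], fun i j => by
      simp only [cm, hA a i j, Complex.ofReal_neg]⟩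
  have key : ∀ a c : ℕ, a + c = m →
      0 ≤ LR m (eL (cx D) ^ a * ((2 : ℂ) • ∑ a, qi (cm (A a))) ^ c) := by
    intro a c hac
    have h1 := rev_pos hA' h (N := c) (n := a) (by omega)
    have e1 : eL (cx D) ^ a * ((2 : ℂ) • ∑ a, qi (cm (A a))) ^ c =
        ((2 : ℝ) ^ c) • ((∑ a, qi (cm (A a))) ^ c * eL (cx D) ^ a) := by
      rw [smul_pow, ← Complex.coe_smul]
      push_cast
      simp only [Algebra.smul_def]
      ring
    rw [e1, map_smul, smul_eq_mul]
    positivity
  have hsum : eL (cx (fun i j k l => D i j k l + ∑ a, scR (A a) i j k l : T4 m)) =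
      eL (cx D) + (2 : ℂ) • ∑ a, qi (cm (A a)) := by
    rw [Finset.smul_sum, ← Finset.sum_congr rfl fun a _ => eL_scR (A a), ← eL_sum,
      ← eL_add (cx D)]
    congr 1
    funext i j k l
    simp only [cx]
    push_cast
    rfl
  rw [gm_LR, gm_LR, hsum, add_pow, map_sum, Finset.sum_range_succ]
  have h1 : eL (cx D) ^ m * ((2 : ℂ) • ∑ a, qi (cm (A a))) ^ (m - m) *
      ((m.choose m : ℕ) : Zc (I2 m → ℂ)) = eL (cx D) ^ m := by
    rw [Nat.sub_self, pow_zero, Nat.choose_self, Nat.cast_one, mul_one, mul_one]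
  rw [h1]
  have h2 : 0 ≤ ∑ k ∈ Finset.range m, LR m (eL (cx D) ^ k *
      ((2 : ℂ) • ∑ a, qi (cm (A a))) ^ (m - k) *
        ((m.choose k : ℕ) : Zc (I2 m → ℂ))) := by
    refine Finset.sum_nonneg fun k hk => ?_
    rw [Finset.mem_range] at hk
    have h3 := key k (m - k) (by omega)
    have e2 : eL (cx D) ^ k * ((2 : ℂ) • ∑ a, qi (cm (A a))) ^ (m - k) *
        ((m.choose k : ℕ) : Zc (I2 m → ℂ)) =
        ((m.choose k : ℕ) : ℝ) • (eL (cx D) ^ k * ((2 : ℂ) • ∑ a, qi (cm (A a))) ^ (m - k)) := by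
      simp only [Algebra.smul_def, map_natCast]
      ring
    rw [e2, map_smul, smul_eq_mul]
    positivity
  linarith

/-- Monotonicity in positive tensors. -/
theorem gm_mono {D E : T4 m} {G : Mt m} (hG : trf G idM = idM) (hD : eL (cx D) ∈ PC G 1)
    (hE : eL (cx E) ∈ PC G 1) :
    gm (fun _ : Fin m => D) ≤ gm (fun _ : Fin m =>
      (fun i j k l => D i j k l + E i j k l : T4 m)) := by
  have h0 : trf G (0 : Mt m) = -0 := by
    funext k l
    simp [trf]
  have key : ∀ a c : ℕ, a + c = m → 0 ≤ LR m (eL (cx D) ^ a * eL (cx E) ^ c) := by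
    intro a c hac
    have h1 := PC_pos rsk_zero rsk_zero rsk_zero hG h0 h0 h0 (N := 0) (n := a + c) (by omega)
      (PC_mul (PC_pow hD a) (PC_pow hE c))
    rwa [mul_zero, pow_zero, one_mul] at h1
  have hsum : eL (cx (fun i j k l => D i j k l + E i j k l : T4 m)) =
      eL (cx D) + eL (cx E) := by
    rw [← eL_add (cx D)]
    congr 1
    funext i j k l
    simp only [cx]
    push_cast
    rfl
  rw [gm_LR, gm_LR, hsum, add_pow, map_sum, Finset.sum_range_succ]
  have h1 : eL (cx D) ^ m * eL (cx E) ^ (m - m) *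
      ((m.choose m : ℕ) : Zc (I2 m → ℂ)) = eL (cx D) ^ m := by
    rw [Nat.sub_self, pow_zero, Nat.choose_self, Nat.cast_one, mul_one, mul_one]
  rw [h1]
  have h2 : 0 ≤ ∑ k ∈ Finset.range m, LR m (eL (cx D) ^ k *
      eL (cx E) ^ (m - k) * ((m.choose k : ℕ) : Zc (I2 m → ℂ))) := by
    refine Finset.sum_nonneg fun k hk => ?_
    rw [Finset.mem_range] at hk
    have h3 := key k (m - k) (by omega)
    have e2 : eL (cx D) ^ k * eL (cx E) ^ (m - k) *
        ((m.choose k : ℕ) : Zc (I2 m → ℂ)) =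
        ((m.choose k : ℕ) : ℝ) • (eL (cx D) ^ k * eL (cx E) ^ (m - k)) := by
      simp only [Algebra.smul_def, map_natCast]
      ring
    rw [e2, map_smul, smul_eq_mul]
    positivity
  linarith

end Pool.Agent.U661.RV
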