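import Mathlib.Algebra.Polynomial.FieldDivision
import Mathlib.Analysis.Complex.Polynomial.Basic

/-!
# Coefficients of polynomials with nonnegative roots
-/

set_option autoImplicit false

namespace Pool.Agent.U661.RV

open Polynomial

theorem coeff_sign (m : ℕ) : ∀ q : ℂ[X], q.Monic → q.natDegree = m →
    (∀ w, q.eval w = 0 → ∃ r : ℝ, 0 ≤ r ∧ w = (r : ℂ)) → ∀ N ≤ m,
      ∃ b : ℝ, 0 ≤ b ∧ q.coeff (m - N) = (-1) ^ N * (b : ℂ) := by
  induction m with
  | zero =>
    intro q hq hd _ N hN
    obtain rfl : N = 0 := by omega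
    refine ⟨1, zero_le_one, ?_⟩
    have : q.coeff 0 = 1 := by
      have h := hq.coeff_natDegree
      rwa [hd] at h
    rw [Nat.sub_zero, this]
    simp
  | succ m ih =>
    intro q hq hd hr N hN
    obtain ⟨w, hw⟩ := IsAlgClosed.exists_root q (by
      rw [Polynomial.degree_eq_natDegree hq.ne_zero, hd]
      exact_mod_cast Nat.succ_ne_zero m)
    obtain ⟨r, hr0, hrw⟩ := hr w hw
    obtain ⟨p, hp⟩ := Polynomial.dvd_iff_isRoot.2 hw
    have hpm : p.Monic := (Polynomial.monic_X_sub_C w).of_mul_monic_left (hp ▸ hq)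
    have hpd : p.natDegree = m := by
      have h1 : q.natDegree = (X - C w).natDegree + p.natDegree := by
        rw [hp]
        exact (Polynomial.monic_X_sub_C w).natDegree_mul hpm
      rw [hd, Polynomial.natDegree_X_sub_C] at h1
      omega
    have ihp := ih p hpm hpd fun z hz => hr z (by rw [hp, Polynomial.eval_mul, hz, mul_zero])
    rcases Nat.eq_zero_or_pos N with rfl | hN0
    · refine ⟨1, zero_le_one, ?_⟩
      have h := hq.coeff_natDegree
      rw [hd] at h
      rw [Nat.sub_zero, h]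
      simp
    · obtain ⟨M, rfl⟩ : ∃ M, N = M + 1 := ⟨N - 1, by omega⟩
      obtain ⟨b, hb, hb'⟩ := ihp M (by omega)
      have hmul : q = p * (X - C w) := by rw [hp, mul_comm]
      rcases Nat.lt_or_ge M m with hM | hM
      · obtain ⟨c, hc, hc'⟩ := ihp (M + 1) (by omega)
        refine ⟨c + r * b, by positivity, ?_⟩
        have e1 : m + 1 - (M + 1) = (m - (M + 1)) + 1 := by omega
        have e2 : m - (M + 1) + 1 = m - M := by omega
        rw [e1, hmul, Polynomial.coeff_mul_X_sub_C, hc', e2, hb', hrw]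
        push_cast
        ring
      · obtain rfl : M = m := by omega
        refine ⟨r * b, by positivity, ?_⟩
        rw [Nat.sub_self] at hb' ⊢
        rw [hmul, Polynomial.mul_coeff_zero, hb', Polynomial.coeff_sub, Polynomial.coeff_X_zero,
          Polynomial.coeff_C_zero, hrw]
        push_cast
        ring

theorem sum_sign {m : ℕ} (a : ℕ → ℂ) (ha : a 0 = 1)
    (h : ∀ w : ℂ, ∑ j ∈ Finset.range (m + 1), a j * w ^ (m - j) = 0 →
      ∃ r : ℝ, 0 ≤ r ∧ w = (r : ℂ)) {N : ℕ} (hN : N ≤ m) :
    ∃ b : ℝ, 0 ≤ b ∧ a N = (-1) ^ N * (b : ℂ) := by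
  set q : ℂ[X] := ∑ j ∈ Finset.range (m + 1), C (a j) * X ^ (m - j) with hq
  have hc : ∀ M ≤ m, q.coeff (m - M) = a M := by
    intro M hM
    rw [hq, Polynomial.finsetSum_coeff, Finset.sum_eq_single M]
    · rw [Polynomial.coeff_C_mul, Polynomial.coeff_X_pow, if_pos rfl, mul_one]
    · intro j hj hjM
      rw [Finset.mem_range] at hj
      rw [Polynomial.coeff_C_mul, Polynomial.coeff_X_pow, if_neg (by omega), mul_zero]
    · intro hM'
      exact absurd (Finset.mem_range.2 (by omega)) hM'
  have hd : q.natDegree ≤ m := by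
    refine Polynomial.natDegree_sum_le_of_forall_le _ _ fun j _ => ?_
    refine (Polynomial.natDegree_C_mul_X_pow_le _ _).trans (by omega)
  have h0 : q.coeff m = 1 := by
    have := hc 0 (by omega)
    rwa [Nat.sub_zero, ha] at this
  have hm : q.Monic := Polynomial.monic_of_natDegree_le_of_coeff_eq_one m hd h0
  have hdeg : q.natDegree = m := by
    refine le_antisymm hd (Polynomial.le_natDegree_of_ne_zero ?_)
    rw [h0]
    exact one_ne_zero
  have hev : ∀ w, q.eval w = ∑ j ∈ Finset.range (m + 1), a j * w ^ (m - j) := by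
    intro w
    rw [hq, Polynomial.eval_finsetSum]
    simp
  obtain ⟨b, hb, hb'⟩ := coeff_sign m q hm hdeg (fun w hw => h w (by rw [← hev, hw])) N hN
  exact ⟨b, hb, by rw [← hc N hN, hb']⟩

end Pool.Agent.U661.RV
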