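import Pool.Agent.U661.RV.Nz
import Pool.Agent.U661.RV.Poly
import Mathlib.Analysis.Complex.Polynomial.GaussLucas
import Mathlib.Analysis.Complex.Convex

/-!
# Mixed products: nonvanishing by derivatives in positive directions
-/

set_option autoImplicit false

namespace Pool.Agent.U661.RV

open Pool.Agent.Y195.HF Pool.Agent.U661.HS

section lp

open Polynomial

theorem half_plane {f : ℂ[X]} (hf : f.natDegree ≠ 0) (h : ∀ s : ℂ, 0 ≤ s.im → f.eval s ≠ 0) :
    f.derivative.eval 0 ≠ 0 := by
  intro h0
  have hd : f.derivative ≠ 0 := fun hd => hf (Polynomial.derivative_eq_zero.1 hd)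
  have h1 : (0 : ℂ) ∈ f.derivative.rootSet ℂ := by
    rw [Polynomial.mem_rootSet]
    refine ⟨hd, ?_⟩
    rw [Polynomial.coe_aeval_eq_eval]
    exact h0
  have hpos : 0 < f.degree := Polynomial.natDegree_pos_iff_degree_pos.1 (Nat.pos_of_ne_zero hf)
  have h2 := Polynomial.rootSet_derivative_subset_convexHull_rootSet hpos h1
  have h3 : convexHull ℝ (f.rootSet ℂ) ⊆ {z : ℂ | z.im < 0} := by
    refine convexHull_min (fun z hz => ?_) (convex_halfSpace_im_lt 0)
    rw [Polynomial.mem_rootSet, Polynomial.coe_aeval_eq_eval] at hz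
    by_contra hcon
    exact h z (not_lt.1 hcon) hz.2
  have h4 : (0 : ℂ).im < 0 := h3 h2
  simp at h4

variable {A : Type} [CommRing A] [Algebra ℂ A]

/-- the polynomial `L((a + X b)^n T)` -/
noncomputable def lp (L : A →ₗ[ℂ] ℂ) (a b T : A) (n : ℕ) : ℂ[X] :=
  ∑ j ∈ Finset.range (n + 1), C (((n.choose j : ℕ) : ℂ) * L (a ^ (n - j) * b ^ j * T)) * X ^ j

theorem lp_eval (L : A →ₗ[ℂ] ℂ) (a b T : A) (n : ℕ) (s : ℂ) :
    (lp L a b T n).eval s = L ((a + s • b) ^ n * T) := by
  unfold lp
  rw [Polynomial.eval_finsetSum, add_comm a, add_pow, Finset.sum_mul, map_sum]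
  refine Finset.sum_congr rfl fun j _ => ?_
  have h : (s • b) ^ j * a ^ (n - j) * ((n.choose j : ℕ) : A) * T =
      (((n.choose j : ℕ) : ℂ) * s ^ j) • (a ^ (n - j) * b ^ j * T) := by
    rw [_root_.smul_pow]
    simp only [Algebra.smul_def, map_mul, map_natCast]
    ring
  rw [h, map_smul, smul_eq_mul, Polynomial.eval_mul, Polynomial.eval_C, Polynomial.eval_pow,
    Polynomial.eval_X]
  ring

theorem lp_coeff (L : A →ₗ[ℂ] ℂ) (a b T : A) (n : ℕ) {k : ℕ} (hk : k ≤ n) :
    (lp L a b T n).coeff k = ((n.choose k : ℕ) : ℂ) * L (a ^ (n - k) * b ^ k * T) := by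
  unfold lp
  rw [Polynomial.finsetSum_coeff, Finset.sum_eq_single k]
  · rw [Polynomial.coeff_C_mul, Polynomial.coeff_X_pow, if_pos rfl, mul_one]
  · intro j _ hj
    rw [Polynomial.coeff_C_mul, Polynomial.coeff_X_pow, if_neg (Ne.symm hj), mul_zero]
  · intro h
    exact absurd (Finset.mem_range.2 (by omega)) h

theorem lp_deg (L : A →ₗ[ℂ] ℂ) (a b T : A) (n : ℕ) (h : L (b ^ n * T) ≠ 0) :
    (lp L a b T n).natDegree = n := by
  refine le_antisymm ?_ (Polynomial.le_natDegree_of_ne_zero ?_)
  · unfold lp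
    refine Polynomial.natDegree_sum_le_of_forall_le _ _ fun j hj => ?_
    rw [Finset.mem_range] at hj
    exact (Polynomial.natDegree_C_mul_X_pow_le _ _).trans (by omega)
  · rw [lp_coeff L a b T n le_rfl, Nat.sub_self, pow_zero, one_mul, Nat.choose_self, Nat.cast_one,
      one_mul]
    exact h

end lp

variable {m : ℕ}

/-- the unit matrix -/
def one' (m : ℕ) : Fin m × Bool → Fin m × Bool → ℝ := fun i j => if i = j then 1 else 0

theorem cm_one : cm (one' m) = (idM : Mt m) := by
  funext i j
  simp only [cm, one', idM]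
  split_ifs <;> simp

theorem xs_one : xs (one' m) = ff false true (idM : Mt m) := by rw [xs, cm_one]

theorem PD.add {S T : Fin m × Bool → Fin m × Bool → ℝ} (hT : PD T) (hS : PD S) {r : ℝ}
    (hr : 0 ≤ r) : PD (T + r • S) := by
  refine ⟨fun i j => ?_, fun x hx => ?_⟩
  · simp only [Pi.add_apply, Pi.smul_apply, smul_eq_mul, hT.1 i j, hS.1 i j]
  · have h1 : ∑ i, ∑ j, x i * (T + r • S) i j * x j =
        (∑ i, ∑ j, x i * T i j * x j) + r * ∑ i, ∑ j, x i * S i j * x j := by
      rw [Finset.mul_sum, ← Finset.sum_add_distrib]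
      refine Finset.sum_congr rfl fun i _ => ?_
      rw [Finset.mul_sum, ← Finset.sum_add_distrib]
      refine Finset.sum_congr rfl fun j _ => ?_
      simp only [Pi.add_apply, Pi.smul_apply, smul_eq_mul]
      ring
    rw [h1]
    have h2 := hT.2 x hx
    have h3 := hS.2 x hx
    positivity

theorem PD.smul {S : Fin m × Bool → Fin m × Bool → ℝ} (hS : PD S) {r : ℝ}
    (hr : 0 < r) : PD (r • S) := by
  refine ⟨fun i j => ?_, fun x hx => ?_⟩
  · simp only [Pi.smul_apply, smul_eq_mul, hS.1 i j]
  · have h1 : ∑ i, ∑ j, x i * (r • S) i j * x j = r * ∑ i, ∑ j, x i * S i j * x j := by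
      rw [Finset.mul_sum]
      refine Finset.sum_congr rfl fun i _ => ?_
      rw [Finset.mul_sum]
      refine Finset.sum_congr rfl fun j _ => ?_
      simp only [Pi.smul_apply, smul_eq_mul]
      ring
    rw [h1]
    have h3 := hS.2 x hx
    positivity

theorem pd_one : PD (one' m) := by
  refine ⟨fun i j => ?_, fun x hx => ?_⟩
  · simp only [one']
    split_ifs with h1 h2 h2 <;> first | rfl | (exfalso; exact h2 h1.symm) | (exfalso; exact h1 h2.symm)
  · have h1 : ∑ i, ∑ j, x i * one' m i j * x j = ∑ i, x i ^ 2 := by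
      refine Finset.sum_congr rfl fun i _ => ?_
      rw [Finset.sum_eq_single i]
      · simp only [one', if_true]
        ring
      · intro j _ hj
        simp only [one']
        rw [if_neg (Ne.symm hj)]
        ring
      · intro h
        exact absurd (Finset.mem_univ i) h
    rw [h1]
    obtain ⟨i, hi⟩ : ∃ i, x i ≠ 0 := by
      by_contra hcon
      push Not at hcon
      exact hx (funext hcon)
    exact Finset.sum_pos' (fun _ _ => sq_nonneg _) ⟨i, Finset.mem_univ i, by positivity⟩

/-- products of the elements of symmetric matrices -/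
noncomputable def pr (L : List (Fin m × Bool → Fin m × Bool → ℝ)) : Zc (I2 m → ℂ) :=
  (L.map xs).prod

/-- the functional -/
noncomputable def Lf (m : ℕ) : Zc (I2 m → ℂ) →ₗ[ℂ] ℂ := (LF m) ∘ₗ (zval (M := I2 m → ℂ)).toLinearMap

theorem Lf_apply (x : Zc (I2 m → ℂ)) : Lf m x = LF m (zval x) := rfl

theorem rsk_zero : RSk (0 : Mt m) := ⟨fun i j => by simp, fun i j => by simp⟩

theorem WW_zero : WW (0 : Mt m) 0 0 = 0 := by
  have h : ∀ s t, ff s t (0 : Mt m) = 0 := by
    intro s t
    unfold ff
    simp
  simp [WW, h]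

theorem xs_zero : xs (0 : Fin m × Bool → Fin m × Bool → ℝ) = 0 := by
  have h := xs_smul (0 : ℝ) (0 : Fin m × Bool → Fin m × Bool → ℝ)
  simpa using h

/-- Mixed products do not vanish in the tube. -/
theorem mix_ne (L : List (Fin m × Bool → Fin m × Bool → ℝ)) : (∀ S ∈ L, PD S) →
    ∀ n : ℕ, L.length + n = 2 * m → ∀ P Q R : Mt m, RSk P → RSk Q → RSk R →
    ∀ S T : Fin m × Bool → Fin m × Bool → ℝ, (∀ i j, S i j = S j i) → PD T →
      Lf m ((WW P Q R + xs S + Complex.I • xs T) ^ n * pr L) ≠ 0 := by
  induction L with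
  | nil =>
    intro _ n hn P Q R hP hQ hR S T hS hT
    have h1 : n = 2 * m := by simpa using hn
    rw [h1, pr, List.map_nil, List.prod_nil, mul_one, Lf_apply]
    exact WW_ne hP hQ hR hS hT
  | cons S₁ L ih =>
    intro hL n hn P Q R hP hQ hR S T hS hT
    have hS₁ : PD S₁ := hL S₁ List.mem_cons_self
    have hn' : L.length + (n + 1) = 2 * m := by
      rw [← hn, List.length_cons]
      ring
    have ih' := ih (fun S hS => hL S (List.mem_cons_of_mem _ hS)) (n + 1) hn'
    set y := WW P Q R + xs S + Complex.I • xs T with hy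
    have hlead : Lf m (xs S₁ ^ (n + 1) * pr L) ≠ 0 := by
      have h1 := ih' 0 0 0 rsk_zero rsk_zero rsk_zero 0 S₁ (fun i j => rfl) hS₁
      rw [WW_zero, xs_zero, zero_add, zero_add, smul_pow, smul_mul_assoc, map_smul] at h1
      intro h2
      exact h1 (by rw [h2, smul_zero])
    have hne : ∀ s : ℂ, 0 ≤ s.im → (lp (Lf m) y (xs S₁) (pr L) (n + 1)).eval s ≠ 0 := by
      intro s hs
      rw [lp_eval]
      have h1 : y + s • xs S₁ = WW P Q R + xs (S + s.re • S₁) + Complex.I • xs (T + s.im • S₁) := by
        rw [hy, xs_add, xs_add, xs_smul, xs_smul]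
        conv_lhs => rw [← Complex.re_add_im s]
        module
      rw [h1]
      exact ih' P Q R hP hQ hR _ _ (fun i j => by
        simp only [Pi.add_apply, Pi.smul_apply, smul_eq_mul, hS i j, hS₁.1 i j]) (hT.add hS₁ hs)
    have h2 := half_plane (by rw [lp_deg _ _ _ _ _ hlead]; omega) hne
    rw [← Polynomial.coeff_zero_eq_eval_zero, Polynomial.coeff_derivative,
      lp_coeff _ _ _ _ _ (by omega)] at h2
    intro h0
    apply h2
    have h3 : y ^ (n + 1 - (0 + 1)) * xs S₁ ^ (0 + 1) * pr L = y ^ n * pr (S₁ :: L) := by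
      rw [pr, pr, List.map_cons, List.prod_cons, zero_add, pow_one, Nat.add_sub_cancel]
      ring
    rw [h3, h0]
    simp

/-- real and complex multiples of the metric -/
theorem mix_one {L : List (Fin m × Bool → Fin m × Bool → ℝ)} (hL : ∀ S ∈ L, PD S) {n : ℕ}
    (hn : L.length + n = 2 * m) {P Q R : Mt m} (hP : RSk P) (hQ : RSk Q) (hR : RSk R)
    {S : Fin m × Bool → Fin m × Bool → ℝ} (hS : ∀ i j, S i j = S j i) {s : ℂ} (hs : s.im ≠ 0) :
    Lf m ((WW P Q R + xs S + s • ff false true (idM : Mt m)) ^ n * pr L) ≠ 0 := by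
  have key : ∀ {P Q R : Mt m}, RSk P → RSk Q → RSk R →
      ∀ {S : Fin m × Bool → Fin m × Bool → ℝ}, (∀ i j, S i j = S j i) → ∀ {s : ℂ}, 0 < s.im →
      Lf m ((WW P Q R + xs S + s • ff false true (idM : Mt m)) ^ n * pr L) ≠ 0 := by
    intro P Q R hP hQ hR S hS s hs
    have h1 : WW P Q R + xs S + s • ff false true (idM : Mt m) =
        WW P Q R + xs (S + s.re • one' m) + Complex.I • xs (s.im • one' m) := by
      rw [xs_add, xs_smul, xs_smul, xs_one]
      conv_lhs => rw [← Complex.re_add_im s]
      module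
    rw [h1]
    exact mix_ne L hL n hn P Q R hP hQ hR _ _ (fun i j => by
      simp only [Pi.add_apply, Pi.smul_apply, smul_eq_mul, hS i j, pd_one.1 i j])
      (pd_one.smul hs)
  rcases lt_or_gt_of_ne hs with h | h
  · have hWn : WW (-P) (-Q) (-R) = - WW P Q R := by
      have hn : ∀ (a b : Bool) (A : Mt m), ff a b (-A) = -ff a b A := by
        intro a b A
        have h1 : -A = (-1 : ℂ) • A := by module
        rw [h1, ff_smul]
        module
      simp only [WW, hn]
      module
    have hxn : xs (-S) = - xs S := by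
      have h1 : -S = (-1 : ℝ) • S := by module
      rw [h1, xs_smul]
      simp
    have h1 := key hP.neg hQ.neg hR.neg (S := -S) (fun i j => by simp only [Pi.neg_apply, hS i j])
      (s := -s) (by simpa using h)
    have h2 : WW (-P) (-Q) (-R) + xs (-S) + (-s) • ff false true (idM : Mt m) =
        -(WW P Q R + xs S + s • ff false true (idM : Mt m)) := by
      rw [hWn, hxn]
      module
    rw [h2, neg_pow] at h1
    intro h0
    apply h1
    rw [mul_assoc]
    have h3 : (-1 : Zc (I2 m → ℂ)) ^ n = algebraMap ℂ _ ((-1 : ℂ) ^ n) := by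
      rw [map_pow, map_neg, map_one]
    rw [h3, ← Algebra.smul_def, map_smul, h0, smul_zero]
  · exact key hP hQ hR hS h

/-- Mixed discriminants of positive definite matrices. -/
theorem mix_pos (L : List (Fin m × Bool → Fin m × Bool → ℝ)) : (∀ S ∈ L, PD S) →
    ∀ n : ℕ, L.length + n = 2 * m → ∃ r : ℝ, 0 < r ∧
      Lf m (ff false true (idM : Mt m) ^ n * pr L) =
        (r : ℂ) * Lf m (ff false true (idM : Mt m) ^ (2 * m)) := by
  induction L with
  | nil =>
    intro _ n hn
    refine ⟨1, one_pos, ?_⟩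
    have h1 : n = 2 * m := by simpa using hn
    rw [h1, pr, List.map_nil, List.prod_nil, mul_one, Complex.ofReal_one, one_mul]
  | cons S L ih =>
    intro hL n hn
    have hS : PD S := hL S List.mem_cons_self
    have hL' : ∀ S ∈ L, PD S := fun S hS => hL S (List.mem_cons_of_mem _ hS)
    have hn' : L.length + (n + 1) = 2 * m := by
      rw [← hn, List.length_cons]
      ring
    obtain ⟨r, hr, hr'⟩ := ih hL' (n + 1) hn'
    set g : Zc (I2 m → ℂ) := ff false true (idM : Mt m) with hg
    have hL0 : Lf m (g ^ (2 * m)) ≠ 0 := LF_g_ne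
    set b := Lf m (g ^ (n + 1) * pr L) with hb
    have hb0 : b ≠ 0 := by
      rw [hr']
      exact mul_ne_zero (by exact_mod_cast hr.ne') hL0
    set a := Lf m (g ^ n * pr (S :: L)) with ha
    have hlin : ∀ s : ℂ, a + s * b = Lf m (g ^ n * ((xs S + s • g) * pr L)) := by
      intro s
      have h1 : g ^ n * ((xs S + s • g) * pr L) = g ^ n * pr (S :: L) + s • (g ^ (n + 1) * pr L) := by
        rw [pr, pr, List.map_cons, List.prod_cons, pow_succ]
        simp only [Algebra.smul_def]
        ring
      rw [h1, map_add, map_smul, smul_eq_mul]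
    have hrep : pr (List.replicate n (one' m) ++ L) = g ^ n * pr L := by
      rw [pr, pr, List.map_append, List.prod_append, List.map_replicate, List.prod_replicate, xs_one]
    have him : ∀ s : ℂ, s.im ≠ 0 → a + s * b ≠ 0 := by
      intro s hs
      rw [hlin]
      have h1 := mix_one (L := List.replicate n (one' m) ++ L) (n := 1) (fun S hS => by
        rcases List.mem_append.1 hS with h | h
        · rw [List.eq_of_mem_replicate h]
          exact pd_one
        · exact hL' S h) (by
        rw [List.length_append, List.length_replicate]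
        omega) rsk_zero rsk_zero rsk_zero hS.1 hs
      rw [WW_zero, zero_add, pow_one, hrep] at h1
      have h2 : g ^ n * ((xs S + s • g) * pr L) = (xs S + s • g) * (g ^ n * pr L) := by ring
      rw [h2]
      exact h1
    have hre : ∀ s : ℝ, 0 ≤ s → a + (s : ℂ) * b ≠ 0 := by
      intro s hs
      rw [hlin]
      have h1 := mix_ne ((S + s • one' m) :: L) (fun S' hS' => by
        rcases List.mem_cons.1 hS' with h | h
        · rw [h]
          exact hS.add pd_one hs
        · exact hL' S' h) n (by rw [← hn, List.length_cons, List.length_cons])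
        0 0 0 rsk_zero rsk_zero rsk_zero 0 (one' m) (fun i j => rfl) pd_one
      rw [WW_zero, xs_zero, zero_add, zero_add, smul_pow, smul_mul_assoc, map_smul] at h1
      intro h2
      apply h1
      have h3 : xs (one' m) ^ n * pr ((S + s • one' m) :: L) =
          g ^ n * ((xs S + (s : ℂ) • g) * pr L) := by
        rw [pr, pr, List.map_cons, List.prod_cons, xs_add, xs_smul, xs_one]
      rw [h3, h2, smul_zero]
    -- the root
    have hroot : a + (-(a / b)) * b = 0 := by
      field_simp
      ring
    have h1 : (-(a / b)).im = 0 := by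
      by_contra hcon
      exact him _ hcon hroot
    have h2 : (a / b).im = 0 := by
      rw [Complex.neg_im] at h1
      linarith
    have h3 : a / b = ((a / b).re : ℂ) := Complex.ext rfl (by rw [h2, Complex.ofReal_im])
    have h4 : 0 < (a / b).re := by
      by_contra hcon
      push Not at hcon
      have h5 := hre (-(a / b).re) (by linarith)
      apply h5
      rw [Complex.ofReal_neg, ← h3]
      exact hroot
    refine ⟨(a / b).re * r, mul_pos h4 hr, ?_⟩
    rw [Complex.ofReal_mul, mul_assoc, ← hr', ← h3]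
    field_simp

end Pool.Agent.U661.RV
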