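import Pool.Agent.U661.RV.Ctr
import Pool.Agent.Y195.HF.Act

/-!
# The top degree functional at the top power of a nondegenerate bivector
-/

set_option autoImplicit false

namespace Pool.Agent.U661.RV

open Pool.Agent.Y195.HF

section top

variable {m : ℕ}

/-- numbering of the basis vectors -/
def E2 (m : ℕ) (x : Fin (m + m) × Bool) : I2 m :=
  Fin.addCases (motive := fun _ => I2 m) (fun b => ((b, x.2), false)) (fun b => ((b, x.2), true)) x.1

theorem E2_surj (m : ℕ) : Function.Surjective (E2 m) := by
  rintro ⟨⟨b, s⟩, t⟩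
  cases t
  · exact ⟨(Fin.castAdd m b, s), by simp [E2]⟩
  · exact ⟨(Fin.natAdd m b, s), by unfold E2; exact Fin.addCases_right _⟩

theorem E2_bij (m : ℕ) : Function.Bijective (E2 m) := by
  refine (Fintype.bijective_iff_surjective_and_card _).2 ⟨E2_surj m, ?_⟩
  simp only [Fintype.card_prod, Fintype.card_fin, Fintype.card_bool]
  ring

/-- the basis vectors -/
noncomputable def ev (i : I2 m) : I2 m → ℂ := Pi.single i 1

theorem phi_E2 : phi (fun x => ev (E2 m x)) = phi (th m false) * phi (th m true) := by
  unfold phi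
  rw [Fin.prod_univ_add]
  congr 1
  · refine Finset.prod_congr rfl fun b _ => ?_
    simp only [E2, Fin.addCases_left]
    rfl
  · refine Finset.prod_congr rfl fun b _ => ?_
    simp only [E2, Fin.addCases_right]
    rfl

theorem phi_span (f : Fin (m + m) × Bool → I2 m) :
    phi (fun x => ev (f x)) ∈ Submodule.span ℂ {phi (th m false) * phi (th m true)} := by
  by_cases hf : Function.Injective f
  · have hb : Function.Bijective f := by
      refine (Fintype.bijective_iff_injective_and_card _).2 ⟨hf, ?_⟩
      simp only [Fintype.card_prod, Fintype.card_fin, Fintype.card_bool]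
      ring
    set σ : Equiv.Perm (Fin (m + m) × Bool) :=
      (Equiv.ofBijective f hb).trans (Equiv.ofBijective (E2 m) (E2_bij m)).symm with hσ
    have h1 : (fun x => ev (f x)) = (fun x => ev (E2 m x)) ∘ σ := by
      funext x
      have h2 : E2 m (σ x) = f x :=
        (Equiv.ofBijective (E2 m) (E2_bij m)).apply_symm_apply (f x)
      simp only [Function.comp_apply, h2]
    rw [h1, phi_perm, phi_E2]
    exact Submodule.smul_mem _ _ (Submodule.mem_span_singleton_self _)
  · simp only [Function.Injective, not_forall] at hf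
    obtain ⟨x, y, hxy, hne⟩ := hf
    have h1 : phi (fun x => (ev (f x) : I2 m → ℂ)) = 0 :=
      phi_zero (x := x) (y := y) (by simp only [hxy]) hne
    rw [h1]
    exact Submodule.zero_mem _

theorem bv_expand (u v : I2 m → ℂ) :
    bv u v = ∑ p : I2 m × I2 m, (u p.1 * v p.2) • bv (ev p.1) (ev p.2) := by
  have hb : ∀ w : I2 m → ℂ, ∑ i, w i • ExteriorAlgebra.ι ℂ (ev i) =
      ExteriorAlgebra.ι ℂ w := by
    intro w
    simp only [← map_smul]
    rw [← map_sum]
    congr 1
    funext j
    rw [Finset.sum_apply, Finset.sum_eq_single j]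
    · simp [ev]
    · intro i _ hi
      simp [ev, Ne.symm hi]
    · intro h
      exact absurd (Finset.mem_univ _) h
  apply zval_inj
  rw [map_sum, bv_coe, ← hb u, ← hb v, Finset.sum_mul_sum]
  refine Eq.trans ?_ (Fintype.sum_prod_type (fun x : I2 m × I2 m =>
    zval ((u x.1 * v x.2) • bv (ev x.1) (ev x.2)))).symm
  refine Finset.sum_congr rfl fun i _ => ?_
  refine Finset.sum_congr rfl fun j _ => ?_
  rw [map_smul, bv_coe, smul_mul_smul_comm]

theorem om_pow_span {κ : Type} [Fintype κ] (u v : κ → I2 m → ℂ) :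
    om u v ^ (m + m) ∈ Submodule.span ℂ {phi (th m false) * phi (th m true)} := by
  have h1 : om u v = ∑ p : I2 m × I2 m, (∑ a, u a p.1 * v a p.2) • bv (ev p.1) (ev p.2) := by
    unfold om
    simp only [Finset.sum_smul]
    rw [Finset.sum_comm]
    refine Finset.sum_congr rfl fun a _ => ?_
    exact bv_expand _ _
  have h2 : om u v ^ (m + m) = ∏ _b : Fin (m + m), om u v := by
    rw [Finset.prod_const, Finset.card_univ, Fintype.card_fin]
  rw [h2, h1, Fintype.prod_sum]
  refine Submodule.sum_mem _ fun c _ => ?_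
  have h3 : ∏ b : Fin (m + m), (∑ a, u a (c b).1 * v a (c b).2) • bv (ev (c b).1) (ev (c b).2) =
      (∏ b, ∑ a, u a (c b).1 * v a (c b).2) •
        phi (fun x : Fin (m + m) × Bool => ev (if x.2 = true then (c x.1).2 else (c x.1).1)) := by
    simp only [Algebra.smul_def, Finset.prod_mul_distrib, ← map_prod]
    rfl
  rw [h3]
  exact Submodule.smul_mem _ _ (phi_span _)

theorem LF_om_ne_zero {κ : Type} [Fintype κ] (u v : κ → I2 m → ℂ)
    (hs : ∀ w, ∃ d, al u v d = w) : LF m (zval (om u v ^ (m + m))) ≠ 0 := by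
  intro h0
  obtain ⟨c, hc⟩ := Submodule.mem_span_singleton.1 (om_pow_span u v)
  rw [← hc, map_smul, map_smul, LF_phi, smul_eq_mul, mul_one] at h0
  rw [h0, zero_smul] at hc
  have h1 := om_pow_ne_zero (n := m + m) u v (by
    simp only [Fintype.card_prod, Fintype.card_fin, Fintype.card_bool]
    ring) hs (m + m) le_rfl
  apply h1
  rw [← map_pow, ← hc, map_zero]

end top

end Pool.Agent.U661.RV
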