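import Pool.Agent.U661.RV.NonV
import Pool.Agent.U661.HS.Fam

/-!
# Nonvanishing for hermitian mixed parts

The argument is the one of `Pool.Agent.U908.LP.Pos`, for a mixed part which is complex hermitian up
to a non-real multiple of the identity.
-/

set_option autoImplicit false

namespace Pool.Agent.U661.RV

open Pool.Agent.Y195.HF Pool.Agent.U661.HS

section quad

variable {J : Type} [Fintype J]

theorem herm_im (H : J → J → ℂ) (hH : ∀ i j, (starRingEnd ℂ) (H i j) = H j i) (v : J → ℂ) :
    (∑ i, (starRingEnd ℂ) (v i) * (∑ j, H i j * v j)).im = 0 := by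
  rw [← Complex.conj_eq_iff_im]
  simp only [map_sum, map_mul, Complex.conj_conj, hH, Finset.mul_sum]
  rw [Finset.sum_comm]
  refine Finset.sum_congr rfl fun i _ => Finset.sum_congr rfl fun j _ => ?_
  ring

theorem pd_im (P : J → J → ℝ) (v : J → ℂ) :
    (∑ i, (starRingEnd ℂ) (v i) * (∑ j, (Complex.I * (P i j : ℂ)) * v j)).im =
      (∑ i, ∑ j, (v i).re * P i j * (v j).re) + ∑ i, ∑ j, (v i).im * P i j * (v j).im := by
  rw [Complex.im_sum, ← Finset.sum_add_distrib]
  refine Finset.sum_congr rfl fun i _ => ?_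
  rw [Finset.mul_sum, Complex.im_sum, ← Finset.sum_add_distrib]
  refine Finset.sum_congr rfl fun j _ => ?_
  simp only [Complex.mul_im, Complex.mul_re, Complex.conj_re, Complex.conj_im,
    Complex.ofReal_re, Complex.ofReal_im, Complex.I_re, Complex.I_im]
  ring

theorem skew_im (C : J → J → ℂ) (hC : ∀ i j, C j i = -C i j) (a b : J → ℂ) :
    ((∑ i, (starRingEnd ℂ) (b i) * (∑ j, C i j * a j)) -
      ∑ i, (starRingEnd ℂ) (a i) * (∑ j, (starRingEnd ℂ) (C i j) * b j)).im = 0 := by
  have h1 : ∑ i, (starRingEnd ℂ) (a i) * (∑ j, (starRingEnd ℂ) (C i j) * b j) =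
      -(starRingEnd ℂ) (∑ i, (starRingEnd ℂ) (b i) * (∑ j, C i j * a j)) := by
    simp only [map_sum, map_mul, Complex.conj_conj, Finset.mul_sum]
    rw [Finset.sum_comm, ← Finset.sum_neg_distrib]
    refine Finset.sum_congr rfl fun i _ => ?_
    rw [← Finset.sum_neg_distrib]
    refine Finset.sum_congr rfl fun j _ => ?_
    rw [hC i j, map_neg]
    ring
  rw [h1, sub_neg_eq_add, Complex.add_im, Complex.conj_im]
  ring

theorem quad_zero (C H : J → J → ℂ) (hC : ∀ i j, C j i = -C i j)
    (hH : ∀ i j, (starRingEnd ℂ) (H i j) = H j i) {P : J → J → ℝ} (hPs : ∀ i j, P i j = P j i)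
    (hP : ∀ x : J → ℝ, x ≠ 0 → 0 < ∑ i, ∑ j, x i * P i j * x j) (a b : J → ℂ)
    (h1 : ∀ i, 2 * (∑ j, C i j * a j) + ∑ j, (H i j + Complex.I * (P i j : ℂ)) * b j = 0)
    (h2 : ∀ i, (∑ j, (H j i + Complex.I * (P j i : ℂ)) * a j) -
      2 * (∑ j, (starRingEnd ℂ) (C i j) * b j) = 0) : a = 0 ∧ b = 0 := by
  have e1 : ∑ i, (starRingEnd ℂ) (b i) * (2 * (∑ j, C i j * a j) +
      ∑ j, (H i j + Complex.I * (P i j : ℂ)) * b j) = 0 :=
    Finset.sum_eq_zero fun i _ => by rw [h1, mul_zero]
  have e2 : ∑ i, (starRingEnd ℂ) (a i) * ((∑ j, (H j i + Complex.I * (P j i : ℂ)) * a j) -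
      2 * (∑ j, (starRingEnd ℂ) (C i j) * b j)) = 0 :=
    Finset.sum_eq_zero fun i _ => by rw [h2, mul_zero]
  have e3 : (∑ i, (starRingEnd ℂ) (b i) * (∑ j, H i j * b j)) +
      (∑ i, (starRingEnd ℂ) (b i) * (∑ j, (Complex.I * (P i j : ℂ)) * b j)) +
      (∑ i, (starRingEnd ℂ) (a i) * (∑ j, H j i * a j)) +
      (∑ i, (starRingEnd ℂ) (a i) * (∑ j, (Complex.I * (P i j : ℂ)) * a j)) +
      2 * ((∑ i, (starRingEnd ℂ) (b i) * (∑ j, C i j * a j)) -
      ∑ i, (starRingEnd ℂ) (a i) * (∑ j, (starRingEnd ℂ) (C i j) * b j)) = 0 := by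
    have e4 : ∀ i, (starRingEnd ℂ) (b i) * (2 * (∑ j, C i j * a j) +
      ∑ j, (H i j + Complex.I * (P i j : ℂ)) * b j) =
      2 * ((starRingEnd ℂ) (b i) * (∑ j, C i j * a j)) + ((starRingEnd ℂ) (b i) *
      (∑ j, H i j * b j) + (starRingEnd ℂ) (b i) *
        (∑ j, (Complex.I * (P i j : ℂ)) * b j)) := fun i => by
      simp only [add_mul, Finset.sum_add_distrib]
      ring
    have e5 : ∀ i, (starRingEnd ℂ) (a i) * ((∑ j, (H j i + Complex.I * (P j i : ℂ)) * a j) -
      2 * (∑ j, (starRingEnd ℂ) (C i j) * b j)) = ((starRingEnd ℂ) (a i) *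
      (∑ j, H j i * a j) + (starRingEnd ℂ) (a i) *
        (∑ j, (Complex.I * (P i j : ℂ)) * a j)) -
      2 * ((starRingEnd ℂ) (a i) * (∑ j, (starRingEnd ℂ) (C i j) * b j)) := fun i => by
      have e6 : ∑ j, (Complex.I * (P j i : ℂ)) * a j = ∑ j, (Complex.I * (P i j : ℂ)) * a j :=
        Finset.sum_congr rfl fun j _ => by rw [hPs j i]
      simp only [add_mul, Finset.sum_add_distrib, e6]
      ring
    rw [Finset.sum_congr rfl fun i _ => e4 i, Finset.sum_add_distrib, Finset.sum_add_distrib,
      ← Finset.mul_sum] at e1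
    rw [Finset.sum_congr rfl fun i _ => e5 i, Finset.sum_sub_distrib, Finset.sum_add_distrib,
      ← Finset.mul_sum] at e2
    linear_combination e1 + e2
  have e6 := congrArg Complex.im e3
  have hH' : ∀ i j, (starRingEnd ℂ) ((fun i j => H j i) i j) = (fun i j => H j i) j i :=
    fun i j => hH j i
  rw [Complex.add_im, Complex.add_im, Complex.add_im, Complex.add_im, Complex.mul_im,
    skew_im C hC a b, Complex.zero_im, herm_im H hH, pd_im, pd_im,
    herm_im (fun i j => H j i) hH'] at e6
  simp only [mul_zero, Complex.im_ofNat, zero_mul, add_zero, zero_add] at e6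
  have hge : ∀ z : J → ℝ, 0 ≤ ∑ i, ∑ j, z i * P i j * z j := by
    intro z
    by_cases hz : z = 0
    · subst hz
      simp
    · exact (hP z hz).le
  have g1 := hge fun i => (a i).re
  have g2 := hge fun i => (a i).im
  have g3 := hge fun i => (b i).re
  have g4 := hge fun i => (b i).im
  have hz : ∀ z : J → ℝ, ∑ i, ∑ j, z i * P i j * z j = 0 → z = 0 := by
    intro z hz
    by_contra hne
    exact absurd hz (hP z hne).ne'
  have z1 := hz (fun i => (a i).re) (by linarith)
  have z2 := hz (fun i => (a i).im) (by linarith)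
  have z3 := hz (fun i => (b i).re) (by linarith)
  have z4 := hz (fun i => (b i).im) (by linarith)
  exact ⟨funext fun i => Complex.ext (congrFun z1 i) (congrFun z2 i),
    funext fun i => Complex.ext (congrFun z3 i) (congrFun z4 i)⟩

end quad

section nonv

variable {m : ℕ}

/-- contraction as a linear map -/
noncomputable def alL {κ : Type} [Fintype κ] (u v : κ → I2 m → ℂ) :
    Module.Dual ℂ (I2 m → ℂ) →ₗ[ℂ] (I2 m → ℂ) where
  toFun := al u v
  map_add' d d' := by
    unfold al
    rw [← Finset.sum_add_distrib]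
    refine Finset.sum_congr rfl fun a _ => ?_
    simp only [LinearMap.add_apply, add_smul]
    abel
  map_smul' c d := by
    unfold al
    rw [RingHom.id_apply, Finset.smul_sum]
    refine Finset.sum_congr rfl fun a _ => ?_
    simp only [LinearMap.smul_apply, smul_eq_mul, mul_smul, smul_sub]

theorem al_surj {κ : Type} [Fintype κ] (u v : κ → I2 m → ℂ)
    (h : ∀ d, al u v d = 0 → d = 0) : ∀ w, ∃ d, al u v d = w := by
  have h1 : Function.Injective (alL u v) := (injective_iff_map_eq_zero _).2 h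
  have h2 : Module.finrank ℂ (Module.Dual ℂ (I2 m → ℂ)) = Module.finrank ℂ (I2 m → ℂ) :=
    Subspace.dual_finrank_eq
  exact (LinearMap.injective_iff_surjective_of_finrank_eq_finrank h2).1 h1

/-- index set -/
abbrev K3 (m : ℕ) := Fin 3 × ((Fin m × Bool) × (Fin m × Bool))

/-- first vectors -/
noncomputable def u3 (C D M : Mt m) (k : K3 m) : I2 m → ℂ :=
  if k.1 = 0 then C k.2.1 k.2.2 • th m false k.2.1
  else if k.1 = 1 then D k.2.1 k.2.2 • th m true k.2.1
  else M k.2.1 k.2.2 • th m false k.2.1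

/-- second vectors -/
noncomputable def v3 (m : ℕ) (k : K3 m) : I2 m → ℂ :=
  if k.1 = 0 then th m false k.2.2 else th m true k.2.2

theorem om_eq (C D M : Mt m) : om (u3 C D M) (v3 m) =
    ff false false C + ff true true D + ff false true M := by
  unfold om
  rw [Fintype.sum_prod_type, Fin.sum_univ_three]
  simp only [Fintype.sum_prod_type, ff, u3, v3]
  simp only [if_true, Fin.isValue, one_ne_zero, if_false, Fin.reduceEq, bv_smul_left]

theorem al_eq (C D M : Mt m) (d : Module.Dual ℂ (I2 m → ℂ)) :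
    al (u3 C D M) (v3 m) d =
      (∑ i, ∑ j, ((C i j * d (th m false i)) • th m false j -
        (d (th m false j) * C i j) • th m false i)) +
      (∑ i, ∑ j, ((D i j * d (th m true i)) • th m true j -
        (d (th m true j) * D i j) • th m true i)) +
      ∑ i, ∑ j, ((M i j * d (th m false i)) • th m true j -
        (d (th m true j) * M i j) • th m false i) := by
  unfold al
  rw [Fintype.sum_prod_type, Fin.sum_univ_three]
  simp only [Fintype.sum_prod_type, u3, v3]
  simp only [if_true, Fin.isValue, one_ne_zero, if_false, Fin.reduceEq, map_smul, smul_eq_mul,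
    smul_smul]

theorem sum_pick (x : Fin m × Bool) (f : Fin m × Bool → Fin m × Bool → ℂ) :
    (∑ i, ∑ j, if x = i then f i j else 0) = ∑ j, f x j := by
  rw [Finset.sum_comm]
  simp

theorem al_false (C D M : Mt m) (d : Module.Dual ℂ (I2 m → ℂ)) (x : Fin m × Bool) :
    al (u3 C D M) (v3 m) d (x, false) = (∑ i, C i x * d (th m false i)) -
      (∑ j, C x j * d (th m false j)) - ∑ j, M x j * d (th m true j) := by
  rw [al_eq]
  simp only [Pi.add_apply, Finset.sum_apply, Pi.sub_apply, Pi.smul_apply, smul_eq_mul, th,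
    Pi.single_apply, Prod.mk.injEq, and_true, and_false, Bool.false_eq_true,
    if_false, mul_zero, sub_zero, zero_sub, Finset.sum_const_zero, add_zero, Finset.sum_sub_distrib,
    mul_ite, mul_one]
  simp only [Finset.sum_ite_eq, Finset.mem_univ, if_true]
  rw [sum_pick x fun i j => d (Pi.single (j, false) 1) * C i j,
    sum_pick x fun i j => d (Pi.single (j, true) 1) * M i j, ← sub_eq_add_neg]
  simp only [mul_comm]

theorem al_true (C D M : Mt m) (d : Module.Dual ℂ (I2 m → ℂ)) (x : Fin m × Bool) :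
    al (u3 C D M) (v3 m) d (x, true) = (∑ i, D i x * d (th m true i)) -
      (∑ j, D x j * d (th m true j)) + ∑ i, M i x * d (th m false i) := by
  rw [al_eq]
  simp only [Pi.add_apply, Finset.sum_apply, Pi.sub_apply, Pi.smul_apply, smul_eq_mul, th,
    Pi.single_apply, Prod.mk.injEq, and_true, and_false, Bool.false_eq_true, Bool.true_eq_false,
    if_false, mul_zero, sub_zero, zero_sub, Finset.sum_const_zero, add_zero, Finset.sum_sub_distrib,
    mul_ite, mul_one]
  simp only [Finset.sum_ite_eq, Finset.mem_univ, if_true]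
  rw [sum_pick x fun i j => d (Pi.single (j, true) 1) * D i j, zero_add]
  simp only [mul_comm]

theorem dual_zero (d : Module.Dual ℂ (I2 m → ℂ)) (h1 : ∀ x, d (th m false x) = 0)
    (h2 : ∀ x, d (th m true x) = 0) : d = 0 := by
  refine (Pi.basisFun ℂ (I2 m)).ext fun i => ?_
  obtain ⟨x, s⟩ := i
  rw [Pi.basisFun_apply, LinearMap.zero_apply]
  cases s
  · exact h1 x
  · exact h2 x

/-- positive definite symmetric matrices -/
def PD (S : Fin m × Bool → Fin m × Bool → ℝ) : Prop :=
  (∀ i j, S i j = S j i) ∧ ∀ x : Fin m × Bool → ℝ, x ≠ 0 → 0 < ∑ i, ∑ j, x i * S i j * x j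

/-- **Nonvanishing.** -/
theorem LF_ne_zero (C H : Mt m) (hC : ∀ i j, C j i = -C i j)
    (hH : ∀ i j, (starRingEnd ℂ) (H i j) = H j i) {P : Fin m × Bool → Fin m × Bool → ℝ}
    (hP : PD P) :
    LF m (zval ((ff false false C + ff true true (cj C) + ff false true
      (fun i j => H i j + Complex.I * (P i j : ℂ))) ^ (m + m))) ≠ 0 := by
  rw [← om_eq]
  refine LF_om_ne_zero _ _ (al_surj _ _ fun d hd => ?_)
  have e1 : ∀ i, 2 * (∑ j, C i j * d (th m false j)) +
      ∑ j, (H i j + Complex.I * (P i j : ℂ)) * d (th m true j) = 0 := by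
    intro x
    have h := congrFun hd (x, false)
    rw [al_false, Pi.zero_apply] at h
    have h3 : ∑ i, C i x * d (th m false i) = -∑ j, C x j * d (th m false j) := by
      rw [← Finset.sum_neg_distrib]
      refine Finset.sum_congr rfl fun i _ => ?_
      rw [hC x i]
      ring
    rw [h3] at h
    linear_combination -h
  have e2 : ∀ i, (∑ j, (H j i + Complex.I * (P j i : ℂ)) * d (th m false j)) -
      2 * (∑ j, (starRingEnd ℂ) (C i j) * d (th m true j)) = 0 := by
    intro x
    have h := congrFun hd (x, true)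
    rw [al_true, Pi.zero_apply] at h
    have h3 : ∑ i, cj C i x * d (th m true i) =
        -∑ j, (starRingEnd ℂ) (C x j) * d (th m true j) := by
      rw [← Finset.sum_neg_distrib]
      refine Finset.sum_congr rfl fun i _ => ?_
      rw [cj, hC x i, map_neg]
      ring
    rw [h3] at h
    have h5 : ∑ j, cj C x j * d (th m true j) =
        ∑ j, (starRingEnd ℂ) (C x j) * d (th m true j) := rfl
    rw [h5] at h
    linear_combination h
  have h := quad_zero C H hC hH hP.1 hP.2 (fun j => d (th m false j)) (fun j => d (th m true j))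
    e1 e2
  exact dual_zero d (congrFun h.1) (congrFun h.2)

/-- skew matrices with real entries -/
def RSk (P : Mt m) : Prop := (∀ i j, (starRingEnd ℂ) (P i j) = P i j) ∧ ∀ i j, P j i = - P i j

theorem RSk.neg {P : Mt m} (hP : RSk P) : RSk (-P) :=
  ⟨fun i j => by simp only [Pi.neg_apply, map_neg, hP.1], fun i j => by
    simp only [Pi.neg_apply, hP.2 i j]⟩

/-- the element of a real symmetric matrix -/
noncomputable def xs (S : Fin m × Bool → Fin m × Bool → ℝ) : Zc (I2 m → ℂ) :=
  ff false true (cm S)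

theorem xs_add (S T : Fin m × Bool → Fin m × Bool → ℝ) : xs (S + T) = xs S + xs T := by
  unfold xs
  rw [← ff_add]
  congr 1
  funext i j
  simp [cm]

theorem xs_smul (r : ℝ) (S : Fin m × Bool → Fin m × Bool → ℝ) :
    xs (r • S) = (r : ℂ) • xs S := by
  unfold xs
  rw [← ff_smul]
  congr 1
  funext i j
  simp [cm]

/-- Nonvanishing for three skew forms. -/
theorem WW_ne {P Q R : Mt m} (hP : RSk P) (hQ : RSk Q) (hR : RSk R)
    {S T : Fin m × Bool → Fin m × Bool → ℝ} (hS : ∀ i j, S i j = S j i) (hT : PD T) :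
    LF m (zval ((WW P Q R + xs S + Complex.I • xs T) ^ (2 * m))) ≠ 0 := by
  set C : Mt m := (1 / 2 : ℂ) • P + (Complex.I / 2) • Q with hCd
  set H : Mt m := Complex.I • R + cm S with hHd
  have hcj : cj C = (1 / 2 : ℂ) • P - (Complex.I / 2) • Q := by
    funext i j
    simp only [cj, hCd, Pi.add_apply, Pi.sub_apply, Pi.smul_apply, smul_eq_mul, map_add, map_mul,
      hP.1, hQ.1, map_div₀, map_one, map_ofNat, Complex.conj_I]
    ring
  have hM : (fun i j => H i j + Complex.I * (T i j : ℂ) : Mt m) = H + Complex.I • cm T := by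
    funext i j
    simp [cm]
  have hx : WW P Q R + xs S + Complex.I • xs T =
      ff false false C + ff true true (cj C) + ff false true
        (fun i j => H i j + Complex.I * (T i j : ℂ)) := by
    have hn : ∀ (a b : Bool) (A B : Mt m), ff a b (A - B) = ff a b A - ff a b B := by
      intro a b A B
      have h1 : A - B = A + (-1 : ℂ) • B := by module
      rw [h1, ff_add, ff_smul]
      module
    rw [hM, hcj, hCd, hHd, ff_add, ff_add, ff_add, hn, ff_smul, ff_smul, ff_smul, ff_smul, ff_smul,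
      ff_smul, WW, xs, xs]
    module
  rw [hx, two_mul]
  refine LF_ne_zero C H (fun i j => ?_) (fun i j => ?_) hT
  · simp only [hCd, Pi.add_apply, Pi.smul_apply, smul_eq_mul, hP.2 i j, hQ.2 i j]
    ring
  · simp only [hHd, Pi.add_apply, Pi.smul_apply, smul_eq_mul, map_add, map_mul, Complex.conj_I,
      hR.1, hR.2 i j, cm, Complex.conj_ofReal, hS i j]
    ring

end nonv

end Pool.Agent.U661.RV
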